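import Pool.Agent.H11.NW.Defs

/-!
# N3: definitions for the base 3 analogue of the non-Wieferich theorem (helper2)

All quantities are explicit expressions that make sense in any field `F`; they are used for
`F = ℚ` and `F = ZMod p`. Nodes: the integers of `[-2k, k]`, double poles.
-/

set_option autoImplicit false

namespace Pool.Agent.H2.N3

open Finset
open Pool.Agent.H11.NW (H)

section
variable (F : Type) [Field F]

/-- `r j = prod_(b=1..j) (3b-1)/(3b)` -/
def r (j : ℕ) : F := ∏ b ∈ range j, (3 * (b : F) + 2) / (3 * ((b : F) + 1))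

/-- `A j = sum_(i=1..j) r (j-i) / i` -/
def A (j : ℕ) : F := ∑ i ∈ range j, r F (j - 1 - i) / ((i : F) + 1)

/-- `w i = prod_(b=1..i) 3b/(3b+1)` -/
def w (i : ℕ) : F := ∏ b ∈ range i, (3 * ((b : F) + 1)) / (3 * ((b : F) + 1) + 1)

/-- the term of the node `-j`, `0 ≤ j ≤ 2k` -/
def TN (k j : ℕ) : F := r F j * (H F j - 2 * (H F (2 * k - j) - H F (k + j))) - A F j

/-- the sum of all terms; this is `(3k)!^2` times the sum of the residues of `f / prod (x-a)^2` -/
def J (k : ℕ) : F :=
  (∑ j ∈ range (2 * k + 1), ((3 * k).choose (2 * k - j) : F) ^ 2 * TN F k j)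
  + ∑ i ∈ range k, ((3 * k).choose (2 * k + i + 1) : F) ^ 2 * (3 * w F i)

end

/-- `p` is a Wieferich prime to base 3 (primality is a separate hypothesis). -/
def W3 (p : ℕ) : Prop := p ^ 2 ∣ 3 ^ (p - 1) - 1

instance : DecidablePred W3 := fun p => inferInstanceAs (Decidable (p ^ 2 ∣ 3 ^ (p - 1) - 1))

/-- the number `M < p` with `3 M + 1 = 0` modulo `p` -/
def MM (p : ℕ) : ℕ := if p % 3 = 1 then (p - 1) / 3 else (2 * p - 1) / 3

end Pool.Agent.H2.N3
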