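import Pool.Agent.H71.NB.Win
import Pool.Agent.H2.N3.Defs

/-!
# N3, the prime number theorem end (helper45)

The primes `p ≡ 1 (mod 3)` of `(3K, 18K]` and the primes `p ≡ 2 (mod 3)` of `(3K, 9K]` (for all of
them `MM p ≤ 6K`) have mass `(21/2 + o(1)) K`, and `3 log 3 + 6 log 2 + 3 + 1/25 < 21/2`.
-/

set_option autoImplicit false

namespace Pool.Agent.H2.N3

open Finset Filter Topology Pool.Agent.H71.NB Pool.Agent.H91.EHA

/-- the primes of a class in a window -/
theorem class_win (q a : ℕ) (hq : 1 ≤ q) (ha : a.Coprime q) (ε : ℝ) (hε : 0 < ε) :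
    ∀ᶠ x : ℕ in atTop, ∀ u v : ℕ, u ≤ v → v ≤ x →
      |∑ p ∈ (Ioc u v).filter (fun p => p.Prime ∧ p ≡ a [MOD q]), Real.log p
        - ((v : ℝ) - u) / (q.totient : ℝ)| ≤ ε * x := by
  obtain ⟨x0, hx0⟩ := psi_ap 1 1
  have ht : Tendsto (fun x : ℕ => Real.log (x : ℝ)) atTop atTop :=
    Real.tendsto_log_atTop.comp tendsto_natCast_atTop_atTop
  filter_upwards [sm1 1 (ε / 3) (by positivity), sm2 (ε / 3) (by positivity),
    eventually_ge_atTop x0, ht.eventually_ge_atTop (q : ℝ)] with x h1 h2 h3 h4 u v huv hvx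
  have b1 := hx0 x h3 v hvx q hq (by rw [pow_one]; exact h4) a ha
  have b2 := hx0 x h3 u (huv.trans hvx) q hq (by rw [pow_one]; exact h4) a ha
  rw [pow_one] at b1 b2
  rw [one_mul] at h1
  have hpA : ∀ y : ℕ, psiA y q a = ∑ n ∈ Icc 1 y, Lam n * (if n ≡ a [MOD q] then (1 : ℝ) else 0) := by
    intro y
    unfold psiA
    rw [Finset.sum_filter]
    refine Finset.sum_congr rfl fun n _ => ?_
    split <;> simp
  rw [hpA] at b1 b2
  have hs := sum_win (fun n => Lam n * (if n ≡ a [MOD q] then (1 : ℝ) else 0)) u v huv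
  have hd := Lam_prime_diff (fun n => if n ≡ a [MOD q] then (1 : ℝ) else 0)
    (fun n => by split <;> simp) u v
  have he : ∑ p ∈ (Ioc u v).filter Nat.Prime, (if p ≡ a [MOD q] then (1 : ℝ) else 0) * Real.log p
      = ∑ p ∈ (Ioc u v).filter (fun p => p.Prime ∧ p ≡ a [MOD q]), Real.log p := by
    rw [← Finset.filter_filter, Finset.sum_filter (s := (Ioc u v).filter Nat.Prime)]
    refine Finset.sum_congr rfl fun p _ => ?_
    split <;> simp
  rw [he] at hd
  have hd' := hd.trans (h2 v hvx)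
  rw [hs] at hd'
  rw [abs_le] at b1 b2 hd' ⊢
  have e3 : ((v : ℝ) - u) / (q.totient : ℝ) = v / (q.totient : ℝ) - u / (q.totient : ℝ) := by ring
  rw [e3]
  constructor <;> linarith

theorem log_three_lt : Real.log 3 < 65 / 41 * Real.log 2 := by
  have h1 : Real.log ((3 : ℝ) ^ 41) < Real.log ((2 : ℝ) ^ 65) :=
    Real.log_lt_log (by positivity) (by norm_num)
  rw [Real.log_pow, Real.log_pow] at h1
  push_cast at h1
  linarith

theorem MM_le (K p : ℕ) (h : p % 3 = 1 ∧ p ≤ 18 * K ∨ p % 3 = 2 ∧ p ≤ 9 * K) : MM p ≤ 6 * K := by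
  unfold MM
  rcases h with ⟨h1, h2⟩ | ⟨h1, h2⟩
  · rw [if_pos h1]; omega
  · rw [if_neg (by omega)]; omega

theorem log_small (A : ℕ) (C ε : ℝ) (hε : 0 < ε) : ∀ᶠ K : ℕ in atTop,
    Real.log C + A * Real.log (K + 1) ≤ ε * K := by
  have hK : Tendsto (fun K : ℕ => (K : ℝ)) atTop atTop := tendsto_natCast_atTop_atTop
  have hinv : Tendsto (fun K : ℕ => ((K : ℝ))⁻¹) atTop (𝓝 0) := tendsto_inv_atTop_zero.comp hK
  have hlogK : Tendsto (fun K : ℕ => Real.log ((K : ℝ) + 1) / K) atTop (𝓝 0) := by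
    have b1 : Tendsto (fun x : ℝ => Real.log x / x) atTop (𝓝 0) := by
      have := Real.isLittleO_log_id_atTop.tendsto_div_nhds_zero
      simpa using this
    have b2 : Tendsto (fun K : ℕ => (K : ℝ) + 1) atTop atTop :=
      tendsto_atTop_add_const_right _ _ hK
    have b3 := b1.comp b2
    have b4 : Tendsto (fun K : ℕ => 1 + ((K : ℝ))⁻¹) atTop (𝓝 (1 + 0)) :=
      tendsto_const_nhds.add hinv
    have b5 := b3.mul b4
    rw [zero_mul] at b5
    refine b5.congr' ?_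
    filter_upwards [eventually_ge_atTop 1] with K hK1
    have hK0 : (0 : ℝ) < K := by exact_mod_cast hK1
    have hK2 : ((K : ℝ) + 1) ≠ 0 := by positivity
    simp only [Function.comp]
    field_simp
  have hlogC : Tendsto (fun K : ℕ => Real.log C / K) atTop (𝓝 0) := hK.const_div_atTop _
  have hall := hlogC.add (hlogK.const_mul (A : ℝ))
  rw [mul_zero, add_zero] at hall
  filter_upwards [hall.eventually_lt_const hε, eventually_ge_atTop 1] with K h1 h2
  have hK0 : (0 : ℝ) < K := by exact_mod_cast h2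
  have h3 := mul_lt_mul_of_pos_right h1 hK0
  have h4 : (Real.log C / K + A * (Real.log ((K : ℝ) + 1) / K)) * K
      = Real.log C + A * Real.log (K + 1) := by
    field_simp
  rw [h4] at h3
  exact h3.le

/-- **PNT end, logarithmic form.** -/
theorem pnt_end (A : ℕ) (C : ℝ) : ∃ K0 : ℕ, 1 ≤ K0 ∧ ∀ K : ℕ, K0 ≤ K →
    Real.log C + A * Real.log (K + 1) + 3 * K * Real.log 3 + 6 * K * Real.log 2
        + Chebyshev.psi ((3 * K : ℕ) : ℝ) + 1 / 25 * K ≤
      ∑ p ∈ (Ioc (3 * K) (18 * K)).filter (fun p => p.Prime ∧ MM p ≤ 6 * K), Real.log p := by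
  have ht : Tendsto (fun K : ℕ => 18 * K) atTop atTop := by
    refine tendsto_atTop_mono (fun K => ?_) tendsto_id
    simp only [id]; omega
  have hev := ((ht.eventually (class_win 3 1 (by norm_num) (by norm_num) (1 / 20000)
    (by norm_num))).and ((ht.eventually (class_win 3 2 (by norm_num) (by norm_num) (1 / 20000)
    (by norm_num))).and ((ht.eventually (psi_near (1 / 20000) (by norm_num))).and
    ((log_small A C (1 / 20000) (by norm_num)).and (eventually_ge_atTop 1)))))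
  obtain ⟨K0, hK0⟩ := eventually_atTop.1 hev
  refine ⟨max K0 1, le_max_right _ _, fun K hKK => ?_⟩
  obtain ⟨h1, h2, h3, h4, h5⟩ := hK0 K (le_trans (le_max_left _ _) hKK)
  have hKpos : (0 : ℝ) < K := by exact_mod_cast h5
  have a1 := h1 (3 * K) (18 * K) (by omega) le_rfl
  have a2 := h2 (3 * K) (9 * K) (by omega) (by omega)
  have a3 := h3 (3 * K) (by omega)
  rw [← psi_eq_sum] at a3
  have hφ : Nat.totient 3 = 2 := by decide
  rw [hφ] at a1 a2
  have hsum : ∑ p ∈ (Ioc (3 * K) (18 * K)).filter (fun p => p.Prime ∧ p ≡ 1 [MOD 3]), Real.log p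
      + ∑ p ∈ (Ioc (3 * K) (9 * K)).filter (fun p => p.Prime ∧ p ≡ 2 [MOD 3]), Real.log p
      ≤ ∑ p ∈ (Ioc (3 * K) (18 * K)).filter (fun p => p.Prime ∧ MM p ≤ 6 * K), Real.log p := by
    rw [← Finset.sum_union]
    · refine Finset.sum_le_sum_of_subset_of_nonneg (fun p hp => ?_) fun p _ _ =>
        Real.log_natCast_nonneg p
      rw [Finset.mem_union, mem_filter, mem_filter, mem_Ioc, mem_Ioc] at hp
      rw [mem_filter, mem_Ioc]
      rcases hp with ⟨⟨g1, g2⟩, g3, g4⟩ | ⟨⟨g1, g2⟩, g3, g4⟩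
      · exact ⟨⟨g1, g2⟩, g3, MM_le K p (Or.inl ⟨g4, g2⟩)⟩
      · exact ⟨⟨g1, by omega⟩, g3, MM_le K p (Or.inr ⟨g4, g2⟩)⟩
    · rw [Finset.disjoint_left]
      intro p hp hp2
      rw [mem_filter] at hp hp2
      have g1 : p % 3 = 1 := hp.2.2
      have g2 : p % 3 = 2 := hp2.2.2
      omega
  refine le_trans ?_ hsum
  have hl2 := Real.log_two_lt_d9
  have hl3 := log_three_lt
  have hl23 : 3 * (K : ℝ) * Real.log 3 ≤ 3 * K * (65 / 41 * Real.log 2) :=
    mul_le_mul_of_nonneg_left hl3.le (by positivity)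
  have hl22 : (K : ℝ) * Real.log 2 ≤ K * 0.6931471808 :=
    mul_le_mul_of_nonneg_left hl2.le hKpos.le
  rw [abs_le] at a1 a2 a3
  push_cast at a1 a2 a3 ⊢
  obtain ⟨a11, -⟩ := a1
  obtain ⟨a21, -⟩ := a2
  obtain ⟨-, a32⟩ := a3
  have e1 : 3 * (K : ℝ) * (65 / 41 * Real.log 2) + 6 * K * Real.log 2
      = (195 / 41 + 6) * (K * Real.log 2) := by ring
  linarith

/-- **Counting end.** -/
theorem count_end (Q : ℕ → Prop) (m0 : ℕ)
    (h : ∀ m : ℕ, m0 ≤ m → ∀ S : Finset ℕ,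
      (∀ p : ℕ, p.Prime → 3 * 3 ^ m < p → p ≤ 18 * 3 ^ m → Q p → p ∈ S) →
        1 / 25 * ((3 ^ m : ℕ) : ℝ) ≤
          ∑ p ∈ S.filter (fun p => p.Prime ∧ 3 * 3 ^ m < p ∧ p ≤ 18 * 3 ^ m), Real.log p) :
    ∀ X : ℕ, 54 * 3 ^ m0 ≤ X → ∀ T : Finset ℕ,
      (∀ p : ℕ, p.Prime → p ≤ X → Q p → p ∈ T) →
        1 / 1350 * (X : ℝ) / Real.log X ≤ (T.card : ℝ) := by
  classical
  intro X hX T hT
  have hm0 : 1 ≤ 3 ^ m0 := Nat.one_le_pow _ _ (by norm_num)
  have hX18 : X / 18 ≠ 0 := by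
    have : 1 ≤ X / 18 := by
      rw [Nat.le_div_iff_mul_le (by norm_num)]; omega
    omega
  set m := Nat.log 3 (X / 18) with hm
  have h1 : 3 ^ m ≤ X / 18 := Nat.pow_log_le_self 3 hX18
  have h2 : X / 18 < 3 ^ (m + 1) := Nat.lt_pow_succ_log_self (by norm_num) _
  have h3 : 18 * 3 ^ m ≤ X := by
    have := Nat.mul_le_mul_left 18 h1
    have h5 : 18 * (X / 18) ≤ X := Nat.mul_div_le X 18
    omega
  have h4 : X < 54 * 3 ^ m := by
    rw [Nat.div_lt_iff_lt_mul (by norm_num)] at h2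
    rw [pow_succ] at h2
    omega
  have hmm : m0 ≤ m := by
    by_contra hlt
    push Not at hlt
    have : 3 ^ m ≤ 3 ^ m0 := Nat.pow_le_pow_right (by norm_num) hlt.le
    omega
  set S : Finset ℕ := T.filter (fun p => Q p ∧ p ≤ X) with hS
  have hSmem : ∀ p : ℕ, p.Prime → 3 * 3 ^ m < p → p ≤ 18 * 3 ^ m → Q p → p ∈ S := by
    intro p hp _ hp2 hq
    rw [hS, mem_filter]
    exact ⟨hT p hp (by omega) hq, hq, by omega⟩
  have hmain := h m hmm S hSmem
  have hX1 : (54 : ℝ) ≤ X := by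
    have : 54 ≤ X := by omega
    exact_mod_cast this
  have hlX : 0 < Real.log X := Real.log_pos (by linarith)
  have hsum : ∑ p ∈ S.filter (fun p => p.Prime ∧ 3 * 3 ^ m < p ∧ p ≤ 18 * 3 ^ m), Real.log p ≤
      (T.card : ℝ) * Real.log X := by
    calc ∑ p ∈ S.filter (fun p => p.Prime ∧ 3 * 3 ^ m < p ∧ p ≤ 18 * 3 ^ m), Real.log p
        ≤ ∑ _p ∈ S.filter (fun p => p.Prime ∧ 3 * 3 ^ m < p ∧ p ≤ 18 * 3 ^ m),
            Real.log X := by
          refine Finset.sum_le_sum fun p hp => ?_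
          rw [mem_filter] at hp
          refine Real.log_le_log (by exact_mod_cast hp.2.1.pos) ?_
          have : p ≤ X := by omega
          exact_mod_cast this
      _ = ((S.filter (fun p => p.Prime ∧ 3 * 3 ^ m < p ∧ p ≤ 18 * 3 ^ m)).card : ℝ)
            * Real.log X := by rw [Finset.sum_const, nsmul_eq_mul]
      _ ≤ (T.card : ℝ) * Real.log X := by
          refine mul_le_mul_of_nonneg_right ?_ hlX.le
          have : (S.filter (fun p => p.Prime ∧ 3 * 3 ^ m < p ∧ p ≤ 18 * 3 ^ m)).card ≤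
              T.card := Finset.card_le_card
            ((Finset.filter_subset _ _).trans (Finset.filter_subset _ _))
          exact_mod_cast this
  have h5 : (X : ℝ) ≤ 54 * ((3 ^ m : ℕ) : ℝ) := by exact_mod_cast h4.le
  rw [div_le_iff₀ hlX]
  linarith

/-- A set of primes with at least `c X / log X` elements up to every large `X` is infinite. -/
theorem infinite_end (Q : ℕ → Prop) (X0 : ℕ) (c : ℝ) (hc0 : 0 < c)
    (h : ∀ X : ℕ, X0 ≤ X → ∀ T : Finset ℕ,
      (∀ p : ℕ, p.Prime → p ≤ X → Q p → p ∈ T) →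
        c * (X : ℝ) / Real.log X ≤ (T.card : ℝ)) :
    {p : ℕ | p.Prime ∧ Q p}.Infinite := by
  intro hfin
  have hT : ∀ X : ℕ, X0 ≤ X → c * (X : ℝ) / Real.log X ≤ (hfin.toFinset.card : ℝ) :=
    fun X hX => h X hX hfin.toFinset fun p hp _ hq => by
      rw [Set.Finite.mem_toFinset]; exact ⟨hp, hq⟩
  have h1 : Tendsto (fun x : ℝ => Real.log x / x) atTop (𝓝 0) := by
    have := Real.isLittleO_log_id_atTop.tendsto_div_nhds_zero
    simpa using this
  have h2 : Tendsto (fun X : ℕ => Real.log (X : ℝ) / X) atTop (𝓝 0) :=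
    h1.comp tendsto_natCast_atTop_atTop
  have hc : (0 : ℝ) < c / ((hfin.toFinset.card : ℝ) + 1) := by positivity
  obtain ⟨X, hX⟩ := ((h2.eventually_lt_const hc).and
    (eventually_ge_atTop (max X0 24))).exists
  obtain ⟨h3, h4⟩ := hX
  have hX1 : (24 : ℝ) ≤ X := by
    have : 24 ≤ X := le_trans (le_max_right _ _) h4
    exact_mod_cast this
  have hX0 : (0 : ℝ) < X := by linarith
  have hlX : 0 < Real.log X := Real.log_pos (by linarith)
  have h5 := hT X (le_trans (le_max_left _ _) h4)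
  have hc1 : (0 : ℝ) ≤ (hfin.toFinset.card : ℝ) := Nat.cast_nonneg _
  rw [div_le_iff₀ hlX] at h5
  rw [div_lt_iff₀ hX0, div_mul_eq_mul_div, lt_div_iff₀ (by positivity)] at h3
  nlinarith

end Pool.Agent.H2.N3
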