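import Pool.Agent.H2.N3.Mass
import Pool.Agent.H2.N3.Pnt

/-! N3 Final: the primes that are not Wieferich primes to base 3 have positive lower density among
the primes -/

set_option autoImplicit false

namespace Pool.Agent.H2.N3

open Finset

/-- For large `m` the primes `p` of `(3k, 18k]`, `k = 3^m`, with `p^2 ∤ 3^(p-1) - 1` have
`∑ log p ≥ k / 25`. -/
theorem non_w3_mass : ∃ m₀ : ℕ, ∀ m : ℕ, m₀ ≤ m →
    (1 / 25 : ℝ) * 3 ^ m ≤
      ∑ p ∈ (Ioc (3 * 3 ^ m) (18 * 3 ^ m)).filter (fun p => p.Prime ∧ ¬ W3 p), Real.log p := by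
  obtain ⟨K0, hK1, h⟩ := pnt_end 3 (10 ^ 3)
  refine ⟨max K0 1, fun m hm => ?_⟩
  have hm1 : 1 ≤ m := le_trans (le_max_right _ _) hm
  have hmK : K0 ≤ 3 ^ m := by
    have h1 : K0 ≤ m := le_trans (le_max_left _ _) hm
    exact h1.trans (Nat.lt_pow_self (by norm_num)).le
  have h1 := h (3 ^ m) hmK
  have h2 := w3_mass m hm1
  have e1 : ∑ p ∈ (Ioc (3 * 3 ^ m) (18 * 3 ^ m)).filter
        (fun p => p.Prime ∧ MM p ≤ 6 * 3 ^ m), Real.log p =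
      ∑ p ∈ (Ioc (3 * 3 ^ m) (18 * 3 ^ m)).filter
        (fun p => (p.Prime ∧ MM p ≤ 6 * 3 ^ m) ∧ W3 p), Real.log p
      + ∑ p ∈ (Ioc (3 * 3 ^ m) (18 * 3 ^ m)).filter
        (fun p => (p.Prime ∧ MM p ≤ 6 * 3 ^ m) ∧ ¬ W3 p), Real.log p := by
    rw [← Finset.filter_filter (fun p => p.Prime ∧ MM p ≤ 6 * 3 ^ m) W3,
      ← Finset.filter_filter (fun p => p.Prime ∧ MM p ≤ 6 * 3 ^ m) (fun p => ¬ W3 p)]
    exact (Finset.sum_filter_add_sum_filter_not _ _ _).symm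
  have e5 : ∑ p ∈ (Ioc (3 * 3 ^ m) (18 * 3 ^ m)).filter
        (fun p => (p.Prime ∧ MM p ≤ 6 * 3 ^ m) ∧ ¬ W3 p), Real.log p ≤
      ∑ p ∈ (Ioc (3 * 3 ^ m) (18 * 3 ^ m)).filter (fun p => p.Prime ∧ ¬ W3 p), Real.log p := by
    refine Finset.sum_le_sum_of_subset_of_nonneg (fun p hp => ?_) fun p _ _ =>
      Real.log_natCast_nonneg p
    rw [mem_filter] at hp ⊢
    exact ⟨hp.1, hp.2.1.1, hp.2.2⟩
  have e2 : Chebyshev.psi (((3 * 3 ^ m : ℕ)) : ℝ) = Chebyshev.psi (3 * 3 ^ m : ℝ) := by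
    push_cast; rfl
  have e3 : Real.log ((3 : ℝ) ^ m) ≤ Real.log (((3 ^ m : ℕ) : ℝ) + 1) := by
    refine Real.log_le_log (by positivity) ?_
    push_cast
    linarith
  have e4 : (((3 ^ m : ℕ)) : ℝ) = 3 ^ m := by push_cast; rfl
  rw [e1, e2, e4] at h1
  rw [e4] at e3
  push_cast at h1
  refine le_trans ?_ e5
  generalize Chebyshev.psi (3 * 3 ^ m : ℝ) = u at h1 h2
  generalize Real.log (10 ^ 3) = v at h1 h2
  linarith

end Pool.Agent.H2.N3
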