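import Pool.Agent.H2.N3.Defs
import Pool.Agent.H11.NW.Harm

/-!
# N3: the harmonic sum up to `p / 3` modulo a base 3 Wieferich prime and the polynomial `f`

`∏ 3 j = ∏ (r_j + p c_j)`, `r_j = 3 j mod p`, `c_j = [3 j / p]`, `1 ≤ j < p`; the `r_j` are a permutation of
the `j`, so `3 ^ (p - 1) = 1 + p ∑ c_j / r_j` modulo `p ^ 2`, and `∑ c_j / j = - H_[p/3] - H_[2p/3]`
modulo `p`, `H_[2p/3] = H_[p/3]`.
-/

set_option autoImplicit false

namespace Pool.Agent.H2.N3

open Finset Polynomial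
open Pool.Agent.H11.NW (H jet_prod prod_shift sum_inv_univ)

private theorem Harm_prod {R ι : Type*} [CommRing R] (e : R) (he : e * e = 0) (s : Finset ι)
    (y : ι → R) : ∏ j ∈ s, (1 + e * y j) = 1 + e * ∑ j ∈ s, y j := by
  classical
  induction s using Finset.induction_on with
  | empty => simp
  | insert a s ha ih =>
    rw [prod_insert ha, sum_insert ha, ih]
    linear_combination (y a * ∑ j ∈ s, y j) * he

private theorem Harm_perm {R : Type*} [CommMonoid R] (p : ℕ) (hpr : p.Prime) (hp : 3 < p)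
    (g : ℕ → R) : ∏ j ∈ Ico 1 p, g (3 * j % p) = ∏ j ∈ Ico 1 p, g j := by
  have hcop : Nat.Coprime p 3 := by
    rw [Nat.coprime_primes hpr Nat.prime_three]
    omega
  have hmaps : ∀ a ∈ Ico 1 p, 3 * a % p ∈ Ico 1 p := by
    intro a ha
    rw [mem_Ico] at ha ⊢
    refine ⟨?_, Nat.mod_lt _ hpr.pos⟩
    rw [Nat.one_le_iff_ne_zero]
    intro h0
    have h1 : p ∣ 3 * a := Nat.dvd_of_mod_eq_zero h0
    have h2 : p ∣ a := hcop.dvd_of_dvd_mul_left h1
    exact absurd (Nat.le_of_dvd (by omega) h2) (by omega)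
  have hinj : Set.InjOn (fun a => 3 * a % p) (Ico 1 p : Finset ℕ) := by
    intro a ha b hb hab
    rw [mem_coe, mem_Ico] at ha hb
    have h1 : 3 * a ≡ 3 * b [MOD p] := hab
    have h2 : a ≡ b [MOD p] := Nat.ModEq.cancel_left_of_coprime (by rwa [Nat.coprime_iff_gcd_eq_one] at hcop) h1
    exact Nat.ModEq.eq_of_lt_of_lt h2 ha.2 hb.2
  refine prod_nbij (fun a => 3 * a % p) hmaps hinj ?_ fun a _ => rfl
  exact Finset.surjOn_of_injOn_of_card_le _ (fun a ha => by
    have := hmaps a (by exact_mod_cast ha)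
    exact_mod_cast this) hinj le_rfl

private theorem Harm_floor (p : ℕ) [Fact p.Prime] (hp : 3 < p) (hw : W3 p) :
    ∑ j ∈ Ico 1 p, ((3 * j / p : ℕ) : ZMod p) * (j : ZMod p)⁻¹ = 0 := by
  have hpr : p.Prime := Fact.out
  have hcop : Nat.Coprime p 3 := by
    rw [Nat.coprime_primes hpr Nat.prime_three]
    omega
  have h3 : (3 : ZMod p) ≠ 0 := by
    intro h
    have : ((3 : ℕ) : ZMod p) = 0 := by exact_mod_cast h
    rw [ZMod.natCast_eq_zero_iff] at this
    exact absurd (Nat.le_of_dvd (by omega) this) (by omega)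
  set e : ZMod (p ^ 2) := ((p : ℕ) : ZMod (p ^ 2)) with hedef
  have he : e * e = 0 := by
    rw [hedef, ← Nat.cast_mul, ← pow_two]
    exact ZMod.natCast_self _
  have hu : ∀ j : ℕ, ¬ p ∣ j → ((j : ℕ) : ZMod (p ^ 2)) * ((j : ℕ) : ZMod (p ^ 2))⁻¹ = 1 := by
    intro j hj
    refine ZMod.coe_mul_inv_eq_one j ?_
    exact (Nat.Coprime.pow_left 2 ((Nat.Prime.coprime_iff_not_dvd hpr).2 hj)).symm
  have hr : ∀ j ∈ Ico 1 p, ¬ p ∣ 3 * j % p := by
    intro j hj h
    rw [mem_Ico] at hj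
    have h0 : 3 * j % p = 0 := Nat.eq_zero_of_dvd_of_lt h (Nat.mod_lt _ hpr.pos)
    have h2 : p ∣ j := hcop.dvd_of_dvd_mul_left (Nat.dvd_of_mod_eq_zero h0)
    exact absurd (Nat.le_of_dvd (by omega) h2) (by omega)
  set S : ZMod (p ^ 2) := ∑ j ∈ Ico 1 p,
    ((3 * j / p : ℕ) : ZMod (p ^ 2)) * ((3 * j % p : ℕ) : ZMod (p ^ 2))⁻¹ with hS
  have hterm : ∀ j ∈ Ico 1 p, ((3 : ZMod (p ^ 2)) * ((j : ℕ) : ZMod (p ^ 2)))
      = ((3 * j % p : ℕ) : ZMod (p ^ 2)) * (1 + e * (((3 * j / p : ℕ) : ZMod (p ^ 2))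
        * ((3 * j % p : ℕ) : ZMod (p ^ 2))⁻¹)) := by
    intro j hj
    have h1 := congrArg (fun n : ℕ => (n : ZMod (p ^ 2))) (Nat.mod_add_div (3 * j) p)
    rw [Nat.cast_add, Nat.cast_mul, Nat.cast_mul, ← hedef] at h1
    push_cast at h1
    have h2 := hu _ (hr j hj)
    linear_combination -h1 - e * ((3 * j / p : ℕ) : ZMod (p ^ 2)) * h2
  have hU : IsUnit (∏ j ∈ Ico 1 p, ((j : ℕ) : ZMod (p ^ 2))) := by
    rw [IsUnit.prod_iff]
    intro j hj
    rw [mem_Ico] at hj
    refine IsUnit.of_mul_eq_one _ (hu j ?_)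
    intro h
    exact absurd (Nat.le_of_dvd (by omega) h) (by omega)
  have hprod : (3 : ZMod (p ^ 2)) ^ (p - 1) * ∏ j ∈ Ico 1 p, ((j : ℕ) : ZMod (p ^ 2))
      = (∏ j ∈ Ico 1 p, ((j : ℕ) : ZMod (p ^ 2))) * (1 + e * S) := by
    have h1 : (3 : ZMod (p ^ 2)) ^ (p - 1) * ∏ j ∈ Ico 1 p, ((j : ℕ) : ZMod (p ^ 2))
        = ∏ j ∈ Ico 1 p, ((3 : ZMod (p ^ 2)) * ((j : ℕ) : ZMod (p ^ 2))) := by
      rw [prod_mul_distrib, prod_const, Nat.card_Ico]
    rw [h1, prod_congr rfl hterm, prod_mul_distrib, Harm_prod e he,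
      Harm_perm p hpr hp (fun n : ℕ => ((n : ℕ) : ZMod (p ^ 2)))]
  have hpow : (3 : ZMod (p ^ 2)) ^ (p - 1) = 1 := by
    have h1 : ((3 ^ (p - 1) - 1 : ℕ) : ZMod (p ^ 2)) = 0 :=
      (ZMod.natCast_eq_zero_iff _ _).2 hw
    rw [Nat.cast_sub (Nat.one_le_pow _ _ (by norm_num))] at h1
    push_cast at h1
    linear_combination h1
  have heS : e * S = 0 := by
    rw [hpow, one_mul] at hprod
    have h1 : (∏ j ∈ Ico 1 p, ((j : ℕ) : ZMod (p ^ 2))) * (e * S) = 0 := by
      linear_combination -hprod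
    exact (hU.mul_right_eq_zero).1 h1
  have hdvd : p ∣ S.val := by
    have : NeZero (p ^ 2) := ⟨pow_ne_zero 2 hpr.ne_zero⟩
    have h1 : ((p * S.val : ℕ) : ZMod (p ^ 2)) = 0 := by
      rw [Nat.cast_mul, ZMod.natCast_zmod_val]
      exact heS
    have h2 : p ^ 2 ∣ p * S.val := (ZMod.natCast_eq_zero_iff _ _).1 h1
    have h4 : p * p ∣ p * S.val := (dvd_of_eq (pow_two p).symm).trans h2
    exact Nat.dvd_of_mul_dvd_mul_left hpr.pos h4
  set φ : ZMod (p ^ 2) →+* ZMod p := ZMod.castHom (dvd_pow_self p two_ne_zero) (ZMod p) with hφ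
  have hφS : φ S = 0 := by
    have : NeZero (p ^ 2) := ⟨pow_ne_zero 2 hpr.ne_zero⟩
    have h1 : S = ((S.val : ℕ) : ZMod (p ^ 2)) := (ZMod.natCast_zmod_val S).symm
    rw [h1, map_natCast]
    exact (ZMod.natCast_eq_zero_iff _ _).2 hdvd
  have hinv : ∀ j ∈ Ico 1 p, φ (((3 * j % p : ℕ) : ZMod (p ^ 2))⁻¹)
      = 3⁻¹ * ((j : ℕ) : ZMod p)⁻¹ := by
    intro j hj
    have h1 := congrArg φ (hu _ (hr j hj))
    rw [map_mul, map_one, map_natCast, ZMod.natCast_mod] at h1
    rw [eq_inv_of_mul_eq_one_right h1]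
    push_cast
    rw [mul_inv]
  have hsum : 3⁻¹ * ∑ j ∈ Ico 1 p, ((3 * j / p : ℕ) : ZMod p) * (j : ZMod p)⁻¹ = 0 := by
    rw [← hφS, hS, map_sum, mul_sum]
    refine sum_congr rfl fun j hj => ?_
    rw [map_mul, map_natCast, hinv j hj]
    ring
  exact (mul_eq_zero.1 hsum).resolve_left (inv_ne_zero h3)

private theorem Harm_range (p m : ℕ) [Fact p.Prime] (hm : m ≤ p - 1) :
    ∑ j ∈ range (p - 1), (if j < m then ((j : ZMod p) + 1)⁻¹ else 0) = H (ZMod p) m := by
  rw [← sum_filter, H]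
  have h1 : (range (p - 1)).filter (fun j => j < m) = range m := by
    ext j
    rw [mem_filter, mem_range, mem_range]
    omega
  rw [h1]
  exact sum_congr rfl fun j _ => (one_div _).symm

private theorem Harm_reflect (p : ℕ) [Fact p.Prime] (hp : 3 < p) (n m : ℕ) (h : n + m = p - 1) :
    H (ZMod p) n = H (ZMod p) m := by
  have hpr : p.Prime := Fact.out
  have h0 := sum_inv_univ p (by omega)
  rw [← h, sum_range_add] at h0
  have h1 : ∑ x ∈ range m, (((n + x : ℕ) : ZMod p) + 1)⁻¹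
      = - ∑ x ∈ range m, ((x : ZMod p) + 1)⁻¹ := by
    rw [← sum_range_reflect (fun x => ((x : ZMod p) + 1)⁻¹) m, ← sum_neg_distrib]
    refine sum_congr rfl fun k hk => ?_
    have hk' := mem_range.1 hk
    have h4 : (((n + k : ℕ) : ZMod p) + 1) = -(((m - 1 - k : ℕ) : ZMod p) + 1) := by
      have h5 : ((n + k + 1 + (m - 1 - k + 1) : ℕ) : ZMod p) = 0 := by
        have : n + k + 1 + (m - 1 - k + 1) = p := by
          have := hpr.one_lt
          omega
        rw [this]; exact ZMod.natCast_self p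
      push_cast at h5 ⊢
      linear_combination h5
    rw [h4, inv_neg]
  rw [h1] at h0
  have e1 : H (ZMod p) n = ∑ x ∈ range n, ((x : ZMod p) + 1)⁻¹ :=
    sum_congr rfl fun j _ => one_div _
  have e2 : H (ZMod p) m = ∑ x ∈ range m, ((x : ZMod p) + 1)⁻¹ :=
    sum_congr rfl fun j _ => one_div _
  rw [e1, e2]
  linear_combination h0

theorem harm_zero (p : ℕ) [Fact p.Prime] (hp : 3 < p) (hw : W3 p) : H (ZMod p) (MM p) = 0 := by
  have hpr : p.Prime := Fact.out
  have h3p : p % 3 ≠ 0 := by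
    intro h
    have := (Nat.prime_dvd_prime_iff_eq Nat.prime_three hpr).1 (Nat.dvd_of_mod_eq_zero h)
    omega
  have hrefl : H (ZMod p) (p / 3) = H (ZMod p) (2 * p / 3) :=
    Harm_reflect p hp _ _ (by omega)
  have h2 : (2 : ZMod p) ≠ 0 := by
    intro h
    have : ((2 : ℕ) : ZMod p) = 0 := by exact_mod_cast h
    rw [ZMod.natCast_eq_zero_iff] at this
    exact absurd (Nat.le_of_dvd (by omega) this) (by omega)
  have h0 := Harm_floor p hp hw
  rw [Finset.sum_Ico_eq_sum_range] at h0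
  have h1 : ∀ j ∈ range (p - 1), ((3 * (1 + j) / p : ℕ) : ZMod p) * (((1 + j : ℕ)) : ZMod p)⁻¹
      = 2 * ((j : ZMod p) + 1)⁻¹ - (if j < p / 3 then ((j : ZMod p) + 1)⁻¹ else 0)
        - (if j < 2 * p / 3 then ((j : ZMod p) + 1)⁻¹ else 0) := by
    intro j hj
    have hj' := mem_range.1 hj
    have hc : (((1 + j : ℕ)) : ZMod p) = (j : ZMod p) + 1 := by push_cast; ring
    rw [hc]
    by_cases ha : j < p / 3
    · have hb : j < 2 * p / 3 := by omega
      have hq : 3 * (1 + j) / p = 0 := Nat.div_eq_of_lt (by omega)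
      rw [if_pos ha, if_pos hb, hq]
      push_cast
      ring
    · by_cases hb : j < 2 * p / 3
      · have hq : 3 * (1 + j) / p = 1 := by
          refine Nat.div_eq_of_lt_le ?_ ?_
          · omega
          · omega
        rw [if_neg ha, if_pos hb, hq]
        push_cast
        ring
      · have hq : 3 * (1 + j) / p = 2 := by
          refine Nat.div_eq_of_lt_le ?_ ?_
          · omega
          · omega
        rw [if_neg ha, if_neg hb, hq]
        push_cast
        ring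
  rw [sum_congr rfl h1, sum_sub_distrib, sum_sub_distrib, ← mul_sum, sum_inv_univ p (by omega),
    Harm_range p _ (by omega), Harm_range p _ (by omega), ← hrefl] at h0
  have h4 : H (ZMod p) (p / 3) = 0 := by
    have h5 : (2 : ZMod p) * H (ZMod p) (p / 3) = 0 := by linear_combination -h0
    exact (mul_eq_zero.1 h5).resolve_left h2
  unfold MM
  by_cases hm : p % 3 = 1
  · rw [if_pos hm]
    have : (p - 1) / 3 = p / 3 := by omega
    rw [this]
    exact h4
  · rw [if_neg hm]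
    have : (2 * p - 1) / 3 = 2 * p / 3 := by omega
    rw [this, ← hrefl]
    exact h4

theorem exists_poly (p : ℕ) [Fact p.Prime] (hp : 3 < p) : ∃ f : (ZMod p)[X],
    f.natDegree ≤ MM p ∧ f.coeff 0 = 1 ∧
      f.coeff 1 = - H (ZMod p) (MM p) ∧ (3 * X + 1) * f.comp (X + 1) = 3 * X * f := by
  have hpr : p.Prime := Fact.out
  have h3p : p % 3 ≠ 0 := by
    intro h
    have := (Nat.prime_dvd_prime_iff_eq Nat.prime_three hpr).1 (Nat.dvd_of_mod_eq_zero h)
    omega
  obtain ⟨M, hMd⟩ : ∃ M, M = MM p := ⟨_, rfl⟩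
  have hM2 : 3 * M + 1 = p ∨ 3 * M + 1 = 2 * p := by
    rw [hMd, MM]
    by_cases hm : p % 3 = 1
    · rw [if_pos hm]
      left
      omega
    · rw [if_neg hm]
      right
      omega
  have hMp : M < p := by omega
  rw [← hMd]
  have hne : ∀ j : ℕ, j < M → ((j : ZMod p) + 1) ≠ 0 := by
    intro j hj h
    have h1 : ((j + 1 : ℕ) : ZMod p) = 0 := by push_cast; exact h
    rw [ZMod.natCast_eq_zero_iff] at h1
    exact absurd (Nat.le_of_dvd (by omega) h1) (by omega)
  obtain ⟨j0, j1, -⟩ := jet_prod M fun j => 1 / ((j : ZMod p) + 1)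
  refine ⟨∏ j ∈ range M, (1 - C (1 / ((j : ZMod p) + 1)) * X), ?_, j0, j1, ?_⟩
  · refine le_trans (natDegree_prod_le _ _) ?_
    refine le_trans (sum_le_card_nsmul _ _ 1 fun j _ => ?_) (by simp)
    refine le_trans (natDegree_sub_le _ _) ?_
    rw [natDegree_one]
    exact max_le (by omega) (le_trans (natDegree_C_mul_le _ _) natDegree_X_le)
  · have e1 : (∏ j ∈ range M, (1 - C (1 / ((j : ZMod p) + 1)) * X)) =
        (∏ j ∈ range M, C (1 / ((j : ZMod p) + 1))) *
          ∏ j ∈ range M, (C ((j : ZMod p) + 1) - X) := by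
      rw [← prod_mul_distrib]
      refine prod_congr rfl fun j hj => ?_
      have := hne j (mem_range.1 hj)
      rw [mul_sub, ← C_mul, one_div_mul_cancel this, C_1]
    have e2 : (∏ j ∈ range M, (1 - C (1 / ((j : ZMod p) + 1)) * X)).comp (X + 1) =
        (∏ j ∈ range M, C (1 / ((j : ZMod p) + 1))) *
          ∏ j ∈ range M, (C (j : ZMod p) - X) := by
      rw [Polynomial.prod_comp, ← prod_mul_distrib]
      refine prod_congr rfl fun j hj => ?_
      have h3 := hne j (mem_range.1 hj)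
      rw [sub_comp, one_comp, mul_comp, C_comp, X_comp]
      have h4 : (1 : (ZMod p)[X]) = C (1 / ((j : ZMod p) + 1)) * (C (j : ZMod p) + 1) := by
        rw [← C_1, ← C_add, ← C_mul, one_div_mul_cancel h3]
      linear_combination h4
    rw [e2, e1]
    have e3 := prod_shift (K := ZMod p) M
    have h5 : (3 * C (M : ZMod p) : (ZMod p)[X]) = -1 := by
      have h6 : ((3 * M + 1 : ℕ) : ZMod p) = 0 := by
        rcases hM2 with h | h
        · rw [h]; exact ZMod.natCast_self p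
        · rw [h, Nat.cast_mul, ZMod.natCast_self, mul_zero]
      have h7 : (3 : ZMod p) * (M : ZMod p) = -1 := by
        push_cast at h6
        linear_combination h6
      have h8 : (3 * C (M : ZMod p) : (ZMod p)[X]) = C (3 * (M : ZMod p)) := by
        rw [C_mul]; congr 1
      rw [h8, h7, C_neg, C_1]
    linear_combination (3 * ∏ j ∈ range M, C (1 / ((j : ZMod p) + 1))) * e3 +
      ((∏ j ∈ range M, C (1 / ((j : ZMod p) + 1))) * ∏ j ∈ range M, (C (j : ZMod p) - X)) * h5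

end Pool.Agent.H2.N3
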