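import Pool.Agent.H78.NQ.Res2

/-!
# N3 Herm: residue lemma for double poles (helper33; the proof is in `H78/NQ/Res2.lean`)
-/

set_option autoImplicit false

namespace Pool.Agent.H2.N3

open Finset Polynomial

theorem residue_two {F : Type} [Field F] [DecidableEq F] (s : Finset F) (h : F[X])
    (hd : h.natDegree + 2 ≤ 2 * s.card) :
    ∑ a ∈ s, (∏ b ∈ s.erase a, (a - b))⁻¹ ^ 2 * ((taylor a h).coeff 1 +
      (-2 * ∑ b ∈ s.erase a, (a - b)⁻¹) * (taylor a h).coeff 0) = 0 :=
  Pool.Agent.H78.NQ.residue_two s h hd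

end Pool.Agent.H2.N3
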