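import Pool.Agent.H2.N3.Defs
import Pool.Agent.H11.NW.Integ

set_option autoImplicit false

namespace Pool.Agent.H2.N3

open Finset Polynomial
open Pool.Agent.H11.NW (H IsZ isZ_div isZ_H)

/-- products congruent termwise -/
private theorem prod_cong (d : ℤ) (s : Finset ℕ) (f g : ℕ → ℤ) (h : ∀ i ∈ s, d ∣ f i - g i) :
    d ∣ ∏ i ∈ s, f i - ∏ i ∈ s, g i := by
  classical
  induction s using Finset.induction_on with
  | empty => simp
  | insert a s ha ih =>
    rw [Finset.prod_insert ha, Finset.prod_insert ha]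
    have h1 := h a (Finset.mem_insert_self _ _)
    have h2 := ih (fun i hi => h i (Finset.mem_insert_of_mem hi))
    have h3 : f a * ∏ i ∈ s, f i - g a * ∏ i ∈ s, g i
        = (f a - g a) * ∏ i ∈ s, f i + g a * (∏ i ∈ s, f i - ∏ i ∈ s, g i) := by ring
    rw [h3]
    exact dvd_add (h1.mul_right _) (h2.mul_left _)

private theorem dvd_P (j D : ℕ) (hD : D ∣ j.factorial) (h3 : Nat.Coprime 3 D) :
    (D : ℤ) ∣ ∏ b ∈ range j, (3 * (b : ℤ) + 2) := by
  obtain ⟨a, c, hac⟩ := (Nat.isCoprime_iff_coprime.2 h3 : IsCoprime ((3 : ℕ) : ℤ) (D : ℤ))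
  have h1 : (D : ℤ) ∣ ∏ b ∈ range j, (2 * a + (b : ℤ)) :=
    (Int.natCast_dvd_natCast.2 hD).trans (Nat.factorial_coe_dvd_prod j (2 * a))
  have h2 : (D : ℤ) ∣ ∏ b ∈ range j, (3 * (b : ℤ) + 2) - ∏ b ∈ range j, (3 * (2 * a + (b : ℤ))) := by
    apply prod_cong
    intro b _
    refine ⟨2 * c, ?_⟩
    push_cast at hac
    linear_combination (-2) * hac
  rw [Finset.prod_mul_distrib] at h2
  have h4 := dvd_add h2 (h1.mul_left (∏ _i ∈ range j, (3 : ℤ)))
  simpa using h4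

theorem r_eq (j : ℕ) :
    r ℚ j = ((∏ b ∈ range j, (3 * (b : ℤ) + 2) : ℤ) : ℚ) / (3 ^ j * (j.factorial : ℚ)) := by
  induction j with
  | zero => simp [r]
  | succ j ih =>
    have h1 : r ℚ (j + 1) = r ℚ j * ((3 * (j : ℚ) + 2) / (3 * ((j : ℚ) + 1))) := by
      unfold r
      rw [Finset.prod_range_succ]
    rw [h1, ih, Finset.prod_range_succ, Nat.factorial_succ]
    have h2 : (j.factorial : ℚ) ≠ 0 := by positivity
    have h3 : ((j : ℚ) + 1) ≠ 0 := by positivity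
    push_cast
    field_simp
    ring

theorem isZ_r {k j : ℕ} (h : j ≤ 2 * k) : IsZ ((3 : ℚ) ^ (3 * k) * r ℚ j) := by
  have hp3 : Nat.Prime 3 := Nat.prime_three
  have : Fact (Nat.Prime 3) := ⟨hp3⟩
  have hf0 : j.factorial ≠ 0 := Nat.factorial_ne_zero j
  set v : ℕ := padicValNat 3 j.factorial with hv
  have hv2 : 2 * v ≤ j := by
    have h1 := sub_one_mul_padicValNat_factorial (p := 3) j
    rw [← hv] at h1
    omega
  obtain ⟨D, hD⟩ : 3 ^ v ∣ j.factorial := pow_padicValNat_dvd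
  have hcop : Nat.Coprime 3 D := by
    rw [hp3.coprime_iff_not_dvd]
    rintro ⟨e, he⟩
    have h2 : 3 ^ (v + 1) ∣ j.factorial := ⟨e, by rw [hD, he]; ring⟩
    rw [padicValNat_dvd_iff_le hf0] at h2
    omega
  obtain ⟨q, hq⟩ := dvd_P j D ⟨3 ^ v, by rw [hD]; ring⟩ hcop
  obtain ⟨m, hm⟩ := Nat.exists_eq_add_of_le (show j + v ≤ 3 * k by omega)
  refine ⟨3 ^ m * q, ?_⟩
  rw [r_eq, hq, hm, hD]
  have hD0 : (D : ℚ) ≠ 0 := by
    intro h0
    have : D = 0 := by exact_mod_cast h0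
    rw [this, mul_zero] at hD
    exact hf0 hD
  push_cast
  rw [pow_add, pow_add]
  field_simp

/-- `3^n n! / ∏ (3 b + 1)`, `b` from `s` to `s + n` -/
private noncomputable def Bt (n s : ℕ) : ℚ :=
  3 ^ n * (n.factorial : ℚ) / ∏ b ∈ range (n + 1), (3 * ((s : ℚ) + b) + 1)

private theorem Bt_succ (n s : ℕ) : Bt (n + 1) s = Bt n s - Bt n (s + 1) := by
  have hpos : ∀ t m : ℕ, ∏ b ∈ range m, (3 * ((t : ℚ) + b) + 1) ≠ 0 := by
    intro t m
    apply Finset.prod_ne_zero_iff.2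
    intro b _
    positivity
  have e1 : ∏ b ∈ range (n + 1 + 1), (3 * ((s : ℚ) + b) + 1)
      = (3 * (s : ℚ) + 1) * ((∏ b ∈ range n, (3 * (((s + 1 : ℕ) : ℚ) + b) + 1))
        * (3 * ((s : ℚ) + (n + 1)) + 1)) := by
    rw [Finset.prod_range_succ, Finset.prod_range_succ']
    have : ∏ b ∈ range n, (3 * ((s : ℚ) + ((b + 1 : ℕ) : ℚ)) + 1)
        = ∏ b ∈ range n, (3 * (((s + 1 : ℕ) : ℚ) + b) + 1) := by
      apply Finset.prod_congr rfl
      intro b _
      push_cast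
      ring
    rw [this]
    push_cast
    ring
  have e2 : ∏ b ∈ range (n + 1), (3 * ((s : ℚ) + b) + 1)
      = (3 * (s : ℚ) + 1) * ∏ b ∈ range n, (3 * (((s + 1 : ℕ) : ℚ) + b) + 1) := by
    rw [Finset.prod_range_succ']
    have : ∏ b ∈ range n, (3 * ((s : ℚ) + ((b + 1 : ℕ) : ℚ)) + 1)
        = ∏ b ∈ range n, (3 * (((s + 1 : ℕ) : ℚ) + b) + 1) := by
      apply Finset.prod_congr rfl
      intro b _
      push_cast
      ring
    rw [this]
    push_cast
    ring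
  have e3 : ∏ b ∈ range (n + 1), (3 * (((s + 1 : ℕ) : ℚ) + b) + 1)
      = (∏ b ∈ range n, (3 * (((s + 1 : ℕ) : ℚ) + b) + 1)) * (3 * ((s : ℚ) + (n + 1)) + 1) := by
    rw [Finset.prod_range_succ]
    congr 1
    push_cast
    ring
  unfold Bt
  rw [e1, e2, e3, Nat.factorial_succ]
  set Q : ℚ := ∏ b ∈ range n, (3 * (((s + 1 : ℕ) : ℚ) + b) + 1) with hQ
  have hQ0 : Q ≠ 0 := hpos (s + 1) n
  have h1 : (3 * (s : ℚ) + 1) ≠ 0 := by positivity
  have h2 : (3 * ((s : ℚ) + (n + 1)) + 1) ≠ 0 := by positivity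
  push_cast
  field_simp
  ring

private theorem isZ_Bt {N : ℕ} (n : ℕ) : ∀ s : ℕ, 3 * (s + n) + 1 ≤ N →
    IsZ ((Nat.lcmUpto N : ℚ) * Bt n s) := by
  induction n with
  | zero =>
    intro s hs
    have := isZ_div (N := N) (n := 3 * s + 1) (by omega) (by omega)
    have e : Bt 0 s = 1 / ((3 * s + 1 : ℕ) : ℚ) := by
      unfold Bt
      simp
    rw [e]; exact this
  | succ n ih =>
    intro s hs
    rw [Bt_succ, mul_sub]
    exact (ih s (by omega)).sub (ih (s + 1) (by omega))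

private theorem w_eq (i : ℕ) : w ℚ i = Bt i 0 := by
  have h1 : ∀ i : ℕ, w ℚ i = 3 ^ i * (i.factorial : ℚ) / ∏ b ∈ range i, (3 * ((b : ℚ) + 1) + 1) := by
    intro i
    induction i with
    | zero => simp [w]
    | succ i ih =>
      have h2 : w ℚ (i + 1) = w ℚ i * ((3 * ((i : ℚ) + 1)) / (3 * ((i : ℚ) + 1) + 1)) := by
        unfold w
        rw [Finset.prod_range_succ]
      rw [h2, ih, Finset.prod_range_succ, Nat.factorial_succ]
      have h3 : ∏ b ∈ range i, (3 * ((b : ℚ) + 1) + 1) ≠ 0 := by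
        apply Finset.prod_ne_zero_iff.2
        intro b _
        positivity
      have h4 : (3 * ((i : ℚ) + 1) + 1) ≠ 0 := by positivity
      push_cast
      field_simp
      ring
  rw [h1]
  unfold Bt
  rw [Finset.prod_range_succ']
  have : ∏ b ∈ range i, (3 * (((0 : ℕ) : ℚ) + ((b + 1 : ℕ) : ℚ)) + 1)
      = ∏ b ∈ range i, (3 * ((b : ℚ) + 1) + 1) := by
    apply Finset.prod_congr rfl
    intro b _
    push_cast
    ring
  rw [this]
  simp

theorem isZ_w {N i : ℕ} (h : 3 * i + 1 ≤ N) : IsZ ((Nat.lcmUpto N : ℚ) * w ℚ i) := by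
  rw [w_eq]
  exact isZ_Bt i 0 (by omega)

theorem J_int (k : ℕ) :
    ∃ z : ℤ, (z : ℚ) = 3 ^ (3 * k) * (Nat.lcmUpto (3 * k) : ℚ) * J ℚ k := by
  change IsZ _
  set L : ℚ := (Nat.lcmUpto (3 * k) : ℚ) with hL
  unfold J
  rw [mul_add, Finset.mul_sum, Finset.mul_sum]
  refine IsZ.add (IsZ.sum _ _ fun j hj => ?_) (IsZ.sum _ _ fun i hi => ?_)
  · have hj' := Finset.mem_range.1 hj
    have hr := isZ_r (k := k) (j := j) (by omega)
    have hH1 := isZ_H (N := 3 * k) (n := j) (by omega)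
    have hH2 := isZ_H (N := 3 * k) (n := 2 * k - j) (by omega)
    have hH3 := isZ_H (N := 3 * k) (n := k + j) (by omega)
    rw [← hL] at hH1 hH2 hH3
    have hA : IsZ ((3 : ℚ) ^ (3 * k) * L * A ℚ j) := by
      unfold A
      rw [Finset.mul_sum]
      refine IsZ.sum _ _ fun i hi => ?_
      have hi' := Finset.mem_range.1 hi
      have h1 := isZ_r (k := k) (j := j - 1 - i) (by omega)
      have h2 := isZ_div (N := 3 * k) (n := i + 1) (by omega) (by omega)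
      rw [← hL] at h2
      have h3 := h1.mul h2
      have e : (3 : ℚ) ^ (3 * k) * L * (r ℚ (j - 1 - i) / ((i : ℚ) + 1))
          = (3 : ℚ) ^ (3 * k) * r ℚ (j - 1 - i) * (L * (1 / ((i + 1 : ℕ) : ℚ))) := by
        push_cast
        ring
      rw [e]; exact h3
    have hB : IsZ ((3 : ℚ) ^ (3 * k) * r ℚ j * (L * H ℚ j
        - ((2 : ℕ) : ℚ) * (L * H ℚ (2 * k - j) - L * H ℚ (k + j)))) :=
      hr.mul (hH1.sub ((IsZ.nat 2).mul (hH2.sub hH3)))
    have hC : IsZ ((((3 * k).choose (2 * k - j) : ℕ) : ℚ) ^ 2) := (IsZ.nat _).pow 2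
    have := hC.mul (hB.sub hA)
    have e : (3 : ℚ) ^ (3 * k) * L * (((3 * k).choose (2 * k - j) : ℚ) ^ 2 * TN ℚ k j)
        = (((3 * k).choose (2 * k - j) : ℕ) : ℚ) ^ 2 * ((3 : ℚ) ^ (3 * k) * r ℚ j * (L * H ℚ j
        - ((2 : ℕ) : ℚ) * (L * H ℚ (2 * k - j) - L * H ℚ (k + j)))
          - (3 : ℚ) ^ (3 * k) * L * A ℚ j) := by
      unfold TN
      push_cast
      ring
    rw [e]; exact this
  · have hi' := Finset.mem_range.1 hi
    have hw := isZ_w (N := 3 * k) (i := i) (by omega)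
    rw [← hL] at hw
    have hC : IsZ ((((3 * k).choose (2 * k + i + 1) : ℕ) : ℚ) ^ 2) := (IsZ.nat _).pow 2
    have := hC.mul (((IsZ.nat (3 * 3 ^ (3 * k)))).mul hw)
    have e : (3 : ℚ) ^ (3 * k) * L * (((3 * k).choose (2 * k + i + 1) : ℚ) ^ 2 * (3 * w ℚ i))
        = (((3 * k).choose (2 * k + i + 1) : ℕ) : ℚ) ^ 2 * (((3 * 3 ^ (3 * k) : ℕ) : ℚ)
          * (L * w ℚ i)) := by
      push_cast
      ring
    rw [e]; exact this

end Pool.Agent.H2.N3
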