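import Pool.Agent.H2.N3.Defs

/-!
# N3: jets at the integer nodes (helper71)

`f` satisfies `(3x+1) f(x+1) = 3x f(x)`; its Taylor coefficients of order `0, 1` at the nodes `-j` and
`i + 1` are computed from those at `0`.
-/

set_option autoImplicit false

namespace Pool.Agent.H2.N3

open Finset Polynomial
open Pool.Agent.H11.NW (H)

theorem r_zero {F : Type} [Field F] : r F 0 = 1 := by simp [r]

theorem A_zero {F : Type} [Field F] : A F 0 = 0 := by simp [A]

theorem r_succ {F : Type} [Field F] (j : ℕ) :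
    r F (j + 1) = r F j * ((3 * (j : F) + 2) / (3 * ((j : F) + 1))) := by
  rw [r, r, prod_range_succ]

theorem w_succ {F : Type} [Field F] (i : ℕ) :
    w F (i + 1) = w F i * ((3 * ((i : F) + 1)) / (3 * ((i : F) + 1) + 1)) := by
  rw [w, w, prod_range_succ]

/-- the recurrence of `A` -/
theorem A_rec {F : Type} [Field F] (h3 : (3 : F) ≠ 0) (j : ℕ)
    (hj : ∀ b : ℕ, b < j + 1 → (b : F) + 1 ≠ 0) :
    3 * ((j : F) + 1) * A F (j + 1) = (3 * (j : F) + 2) * A F j + 3 * r F j := by
  have key : ∀ i ∈ range j, 3 * ((j : F) - i) * r F (j - i) =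
      (3 * (j : F) + 2 - 3 * ((i : F) + 1)) * r F (j - 1 - i) := by
    intro i hi
    have hi' := mem_range.1 hi
    obtain ⟨n, hn⟩ : ∃ n, n = j - 1 - i := ⟨_, rfl⟩
    have e1 : j - i = n + 1 := by omega
    have e2 : (n : F) = (j : F) - 1 - i := by
      have : n + 1 + i = j := by omega
      have h := congrArg (Nat.cast (R := F)) this
      push_cast at h
      linear_combination h
    rw [← hn, e1, r_succ]
    have hn1 : (n : F) + 1 ≠ 0 := hj n (by omega)
    field_simp
    rw [e2]
    ring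
  have s1 : 3 * ((j : F) + 1) * A F (j + 1) =
      ∑ i ∈ range (j + 1), (3 * ((j : F) - i) * r F (j - i) / ((i : F) + 1) + 3 * r F (j - i)) := by
    rw [A, mul_sum]
    refine sum_congr rfl fun i hi => ?_
    have hi1 : (i : F) + 1 ≠ 0 := hj i (mem_range.1 hi)
    rw [Nat.add_sub_cancel]
    field_simp
    ring
  have s2 : ∑ i ∈ range (j + 1), 3 * ((j : F) - i) * r F (j - i) / ((i : F) + 1) =
      (3 * (j : F) + 2) * A F j - 3 * ∑ i ∈ range j, r F (j - 1 - i) := by
    rw [sum_range_succ, sub_self, mul_zero, zero_mul, zero_div, add_zero, A, mul_sum, mul_sum,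
      ← sum_sub_distrib]
    refine sum_congr rfl fun i hi => ?_
    have hi1 : (i : F) + 1 ≠ 0 := hj i (by have := mem_range.1 hi; omega)
    rw [key i hi]
    field_simp
  have s3 : ∑ i ∈ range (j + 1), r F (j - i) = ∑ i ∈ range j, r F (j - 1 - i) + r F j := by
    rw [sum_range_succ']
    congr 1
    refine sum_congr rfl fun i _ => ?_
    congr 1
    omega
  rw [s1, sum_add_distrib, s2, ← mul_sum, s3]
  ring

theorem shift_taylor {F : Type} [Field F] {f : F[X]}
    (hf : (3 * X + 1) * f.comp (X + 1) = 3 * X * f) (a : F) :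
    (C 3 * X + C (3 * a + 1)) * taylor (a + 1) f = (C 3 * X + C (3 * a)) * taylor a f := by
  have h := congrArg (taylor a) hf
  have e0 : f.comp (X + 1) = taylor 1 f := by
    rw [taylor_apply, C_1]
  have three : (3 : F[X]) = C 3 := rfl
  rw [e0, taylor_mul, taylor_mul, taylor_taylor, three] at h
  have e1 : taylor a (C 3 * X + 1 : F[X]) = C 3 * X + C (3 * a + 1) := by
    have : (1 : F[X]) = C 1 := by simp
    rw [this, map_add, taylor_mul, taylor_C, taylor_X, taylor_C, mul_add, C_add, C_mul]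
    ring
  have e2 : taylor a (C 3 * X : F[X]) = C 3 * X + C (3 * a) := by
    rw [taylor_mul, taylor_C, taylor_X, mul_add, C_mul]
  rw [e1, e2] at h
  exact h

theorem coeff_lin0 {F : Type} [Field F] (c : F) (g : F[X]) :
    ((C 3 * X + C c) * g).coeff 0 = c * g.coeff 0 := by
  simp [mul_coeff_zero]

theorem coeff_lin1 {F : Type} [Field F] (c : F) (g : F[X]) :
    ((C 3 * X + C c) * g).coeff 1 = 3 * g.coeff 0 + c * g.coeff 1 := by
  rw [add_mul, coeff_add, mul_assoc, coeff_C_mul, coeff_X_mul, coeff_C_mul]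

theorem jrec0 {F : Type} [Field F] {f : F[X]}
    (hf : (3 * X + 1) * f.comp (X + 1) = 3 * X * f) (a : F) :
    (3 * a + 1) * (taylor (a + 1) f).coeff 0 = 3 * a * (taylor a f).coeff 0 := by
  have h := congrArg (fun g => g.coeff 0) (shift_taylor hf a)
  simpa only [coeff_lin0] using h

theorem jrec1 {F : Type} [Field F] {f : F[X]}
    (hf : (3 * X + 1) * f.comp (X + 1) = 3 * X * f) (a : F) :
    3 * (taylor (a + 1) f).coeff 0 + (3 * a + 1) * (taylor (a + 1) f).coeff 1 =
      3 * (taylor a f).coeff 0 + 3 * a * (taylor a f).coeff 1 := by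
  have h := congrArg (fun g => g.coeff 1) (shift_taylor hf a)
  simpa only [coeff_lin1] using h

theorem jet_neg {F : Type} [Field F] (h3 : (3 : F) ≠ 0) (f : F[X])
    (hf : (3 * X + 1) * f.comp (X + 1) = 3 * X * f)
    (f0 : f.coeff 0 = 1) (f1 : f.coeff 1 = 0) (j : ℕ) (hj : ∀ b : ℕ, b < j → (b : F) + 1 ≠ 0) :
    (taylor (-(j : F)) f).coeff 0 = r F j ∧
    (taylor (-(j : F)) f).coeff 1 = r F j * H F j - A F j := by
  induction j with
  | zero =>
    have e : -((0 : ℕ) : F) = 0 := by simp
    rw [e, taylor_zero, r_zero, A_zero]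
    simp [H, f0, f1]
  | succ j ih =>
    obtain ⟨i0, i1⟩ := ih (fun n hn => hj n (Nat.lt_succ_of_lt hn))
    have hj1 := hj j (Nat.lt_succ_self j)
    have e : -((j + 1 : ℕ) : F) + 1 = -(j : F) := by push_cast; ring
    have r0 := jrec0 hf (-((j + 1 : ℕ) : F))
    have r1 := jrec1 hf (-((j + 1 : ℕ) : F))
    rw [e] at r0 r1
    rw [i0] at r0
    rw [i0, i1] at r1
    have s0 := r_succ (F := F) j
    have s1 : H F (j + 1) = H F j + 1 / ((j : F) + 1) := by rw [H, H, sum_range_succ]
    have s2 := A_rec h3 j hj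
    have hne : 3 * ((j : F) + 1) ≠ 0 := mul_ne_zero h3 hj1
    push_cast at r0 r1 ⊢
    have q0 : (taylor (-((j : F) + 1)) f).coeff 0 = r F (j + 1) := by
      apply mul_left_cancel₀ hne
      have e1 : 3 * ((j : F) + 1) * r F (j + 1) = (3 * (j : F) + 2) * r F j := by
        rw [s0]; field_simp
      rw [e1]
      linear_combination r0
    refine ⟨q0, ?_⟩
    apply mul_left_cancel₀ hne
    rw [q0] at r1
    have s3 : 3 * ((j : F) + 1) * r F (j + 1) = (3 * (j : F) + 2) * r F j := by
      rw [s0]; field_simp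
    have s4 : 3 * ((j : F) + 1) * (r F (j + 1) * H F (j + 1)) =
        (3 * (j : F) + 2) * r F j * H F j + 3 * r F (j + 1) := by
      have e2 : 3 * ((j : F) + 1) * (1 / ((j : F) + 1)) = 3 := by field_simp
      rw [s1]
      linear_combination (H F j) * s3 + r F (j + 1) * e2
    rw [mul_sub, s4, s2]
    linear_combination r1

theorem jet_pos {F : Type} [Field F] (f : F[X])
    (hf : (3 * X + 1) * f.comp (X + 1) = 3 * X * f)
    (f0 : f.coeff 0 = 1) (i : ℕ) (hi : ∀ b : ℕ, b ≤ i → 3 * (b : F) + 1 ≠ 0) :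
    (taylor ((i : F) + 1) f).coeff 0 = 0 ∧ (taylor ((i : F) + 1) f).coeff 1 = 3 * w F i := by
  induction i with
  | zero =>
    have r0 := jrec0 hf 0
    have r1 := jrec1 hf 0
    rw [taylor_zero] at r0 r1
    rw [f0] at r1
    simp only [mul_zero, zero_add, one_mul, zero_mul, mul_one, add_zero] at r0 r1
    rw [r0] at r1
    simp only [mul_zero, zero_add] at r1
    simp only [Nat.cast_zero, zero_add, w, prod_range_zero, mul_one]
    exact ⟨r0, r1⟩
  | succ i ih =>
    obtain ⟨i0, i1⟩ := ih (fun n hn => hi n (by omega))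
    have hk2 : 3 * ((i : F) + 1) + 1 ≠ 0 := by
      have := hi (i + 1) le_rfl
      push_cast at this
      exact this
    have r0 := jrec0 hf ((i : F) + 1)
    have r1 := jrec1 hf ((i : F) + 1)
    rw [i0] at r0
    rw [i0, i1] at r1
    have q0 : (taylor ((i : F) + 1 + 1) f).coeff 0 = 0 := by
      rw [mul_zero] at r0
      exact (mul_eq_zero.mp r0).resolve_left hk2
    rw [q0] at r1
    push_cast
    refine ⟨q0, ?_⟩
    apply mul_left_cancel₀ hk2
    have e1 : (3 * ((i : F) + 1) + 1) * (3 * w F (i + 1)) = 3 * (w F i * (3 * ((i : F) + 1))) := by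
      rw [w_succ]
      field_simp
    rw [e1]
    linear_combination r1

end Pool.Agent.H2.N3
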