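import Pool.Agent.H2.N3.Defs
import Pool.Agent.H11.NW.Red

/-! N3 Red: reduction of `J` modulo `p` -/

set_option autoImplicit false

namespace Pool.Agent.H2.N3

open Finset
open Pool.Agent.H11.NW (H Red nat_ne red_H)

section
variable {p : ℕ} [hpf : Fact p.Prime]

theorem three_ne (hp : 3 < p) : (3 : ZMod p) ≠ 0 := by
  have := nat_ne (p := p) (n := 3) (by omega) hp
  simpa using this

theorem red_r (hp : 3 < p) (n : ℕ) (hn : n < p) : Red p (r ℚ n) (r (ZMod p) n) := by
  unfold r
  refine Red.prod _ fun j hj => ?_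
  rw [mem_range] at hj
  refine (((Red.ofNat 3).mul (Red.nat j)).add (Red.ofNat 2)).div
    ((Red.ofNat 3).mul ((Red.nat j).add Red.one)) ?_
  have := nat_ne (p := p) (n := j + 1) (by omega) (by omega)
  push_cast at this
  exact mul_ne_zero (three_ne hp) this

theorem red_A (hp : 3 < p) (n : ℕ) (hn : n < p) : Red p (A ℚ n) (A (ZMod p) n) := by
  unfold A
  refine Red.sum _ fun j hj => ?_
  rw [mem_range] at hj
  refine (red_r hp (n - 1 - j) (by omega)).div ((Red.nat j).add Red.one) ?_
  have := nat_ne (p := p) (n := j + 1) (by omega) (by omega)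
  simpa using this

theorem red_w (n : ℕ) (hn : 3 * n + 1 < p) : Red p (w ℚ n) (w (ZMod p) n) := by
  unfold w
  refine Red.prod _ fun j hj => ?_
  rw [mem_range] at hj
  refine ((Red.ofNat 3).mul ((Red.nat j).add Red.one)).div
    (((Red.ofNat 3).mul ((Red.nat j).add Red.one)).add Red.one) ?_
  have := nat_ne (p := p) (n := 3 * (j + 1) + 1) (by omega) (by omega)
  simpa using this

theorem red_TN (hp : 3 < p) (k j : ℕ) (h1 : 3 * k < p) (hj : j ≤ 2 * k) :
    Red p (TN ℚ k j) (TN (ZMod p) k j) := by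
  unfold TN
  exact ((red_r hp j (by omega)).mul ((red_H j (by omega)).sub
    ((Red.ofNat 2).mul ((red_H (2 * k - j) (by omega)).sub (red_H (k + j) (by omega)))))).sub
    (red_A hp j (by omega))

end

theorem J_red (p : ℕ) [Fact p.Prime] (hp : 3 < p) (k : ℕ) (h1 : 3 * k < p) :
    Red p (J ℚ k) (J (ZMod p) k) := by
  unfold J
  refine (Red.sum _ fun j hj => ?_).add (Red.sum _ fun i hi => ?_)
  · rw [mem_range] at hj
    exact ((Red.nat _).pow 2).mul (red_TN hp k j h1 (by omega))
  · rw [mem_range] at hi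
    exact ((Red.nat _).pow 2).mul ((Red.ofNat 3).mul (red_w i (by omega)))

end Pool.Agent.H2.N3
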