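import Pool.Agent.H2.N3.Defs

/-!
# N3: the size of `J` (helper13)
-/

set_option autoImplicit false

namespace Pool.Agent.H2.N3

open Finset
open Pool.Agent.H11.NW (H)

private theorem H_abs (n : ℕ) : |H ℚ n| ≤ n := by
  unfold H
  refine (abs_sum_le_sum_abs _ _).trans ?_
  refine (sum_le_card_nsmul _ _ 1 fun j _ => ?_).trans (by simp)
  rw [abs_of_nonneg (by positivity), div_le_one (by positivity)]
  have : (0 : ℚ) ≤ j := by positivity
  linarith

private theorem r_abs (n : ℕ) : |r ℚ n| ≤ 1 := by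
  unfold r
  rw [Finset.abs_prod]
  refine prod_le_one (fun j _ => abs_nonneg _) fun j _ => ?_
  rw [abs_of_nonneg (by positivity), div_le_one (by positivity)]
  linarith

private theorem w_abs (n : ℕ) : |w ℚ n| ≤ 1 := by
  unfold w
  rw [Finset.abs_prod]
  refine prod_le_one (fun j _ => abs_nonneg _) fun j _ => ?_
  rw [abs_of_nonneg (by positivity), div_le_one (by positivity)]
  linarith

private theorem A_abs (n : ℕ) : |A ℚ n| ≤ n := by
  unfold A
  refine (abs_sum_le_sum_abs _ _).trans ?_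
  refine (sum_le_card_nsmul _ _ 1 fun j _ => ?_).trans (by simp)
  rw [abs_div]
  have h1 := r_abs (n - 1 - j)
  have h2 : (1 : ℚ) ≤ |(j : ℚ) + 1| := by
    rw [abs_of_nonneg (by positivity)]
    have : (0 : ℚ) ≤ j := by positivity
    linarith
  rw [div_le_one (by linarith)]
  linarith

private theorem TN_abs (k j : ℕ) (hj : j ≤ 2 * k) : |TN ℚ k j| ≤ 10 * k := by
  unfold TN
  have h1 := abs_le.1 (H_abs j)
  have h2 := abs_le.1 (H_abs (2 * k - j))
  have h3 := abs_le.1 (H_abs (k + j))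
  have h5 : (j : ℚ) ≤ 2 * k := by exact_mod_cast hj
  rw [Nat.cast_sub hj] at h2
  push_cast at h2 h3
  have h6 : |H ℚ j - 2 * (H ℚ (2 * k - j) - H ℚ (k + j))| ≤ 6 * k + j := by
    rw [abs_le]
    constructor <;> linarith [h1.1, h1.2, h2.1, h2.2, h3.1, h3.2]
  have h7 : |r ℚ j * (H ℚ j - 2 * (H ℚ (2 * k - j) - H ℚ (k + j)))| ≤ 6 * k + j := by
    rw [abs_mul]
    have := mul_le_mul (r_abs j) h6 (abs_nonneg _) (by norm_num)
    linarith
  have h8 := abs_sub (r ℚ j * (H ℚ j - 2 * (H ℚ (2 * k - j) - H ℚ (k + j)))) (A ℚ j)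
  have h9 := A_abs j
  linarith

theorem J_size (k : ℕ) (hk : 1 ≤ k) : |J ℚ k| ≤ 10 ^ 3 * (k : ℚ) ^ 3 * 2 ^ (6 * k) := by
  have hk1 : (1 : ℚ) ≤ k := by exact_mod_cast hk
  have hc : ∀ a : ℕ, (((3 * k).choose a : ℕ) : ℚ) ^ 2 ≤ 2 ^ (6 * k) := fun a => by
    have : ((3 * k).choose a) ^ 2 ≤ 2 ^ (6 * k) := by
      calc ((3 * k).choose a) ^ 2 ≤ (2 ^ (3 * k)) ^ 2 :=
            Nat.pow_le_pow_left (Nat.choose_le_two_pow _ _) 2
        _ = 2 ^ (6 * k) := by rw [← pow_mul]; ring_nf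
    exact_mod_cast this
  have hP : (0 : ℚ) < 2 ^ (6 * k) := by positivity
  have h1 : |∑ j ∈ range (2 * k + 1), ((3 * k).choose (2 * k - j) : ℚ) ^ 2 * TN ℚ k j|
      ≤ (2 * (k : ℚ) + 1) * (2 ^ (6 * k) * (10 * k)) := by
    refine (abs_sum_le_sum_abs _ _).trans ?_
    refine (sum_le_card_nsmul _ _ (2 ^ (6 * k) * (10 * (k : ℚ))) fun j hj => ?_).trans
      (by rw [card_range, nsmul_eq_mul]; push_cast; exact le_rfl)
    rw [abs_mul, abs_of_nonneg (by positivity : (0 : ℚ) ≤ ((3 * k).choose (2 * k - j) : ℚ) ^ 2)]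
    have hj' : j ≤ 2 * k := by have := mem_range.1 hj; omega
    exact mul_le_mul (hc _) (TN_abs k j hj') (abs_nonneg _) hP.le
  have h2 : |∑ i ∈ range k, ((3 * k).choose (2 * k + i + 1) : ℚ) ^ 2 * (3 * w ℚ i)|
      ≤ (k : ℚ) * (2 ^ (6 * k) * 3) := by
    refine (abs_sum_le_sum_abs _ _).trans ?_
    refine (sum_le_card_nsmul _ _ ((2 : ℚ) ^ (6 * k) * 3) fun j hj => ?_).trans
      (by rw [card_range, nsmul_eq_mul])
    rw [abs_mul, abs_of_nonneg (by positivity : (0 : ℚ) ≤ ((3 * k).choose (2 * k + j + 1) : ℚ) ^ 2),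
      abs_mul, abs_of_nonneg (by norm_num : (0 : ℚ) ≤ 3)]
    have := w_abs j
    exact mul_le_mul (hc _) (by linarith) (by positivity) hP.le
  unfold J
  refine (abs_add_le _ _).trans ?_
  refine (add_le_add h1 h2).trans ?_
  have h3 : (2 * (k : ℚ) + 1) * (2 ^ (6 * k) * (10 * k)) + k * (2 ^ (6 * k) * 3)
      = (20 * (k : ℚ) ^ 2 + 13 * k) * 2 ^ (6 * k) := by ring
  rw [h3]
  refine mul_le_mul_of_nonneg_right ?_ hP.le
  have h4 : (k : ℚ) ≤ (k : ℚ) ^ 2 := by nlinarith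
  have h5 : (k : ℚ) ^ 2 ≤ (k : ℚ) ^ 3 := by
    have : (k : ℚ) ^ 3 = (k : ℚ) ^ 2 * k := by ring
    rw [this]; nlinarith [sq_nonneg (k : ℚ)]
  nlinarith

end Pool.Agent.H2.N3
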