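import Pool.Agent.H2.N3.Defs

/-!
# N3, module Val: `J ℚ (3 ^ m) ≠ 0` (helper87)

3-adic dominance of the node `-2k`, `k = 3 ^ m`: with `E = 2k + v((2k)!)` its term has 3-adic
valuation `-E - (m + 1)` (the only summand of `H (3k)` of valuation `-(m+1)` is `1 / 3^(m+1)`), all
other terms have valuation at least `-E + 1`.
-/

set_option autoImplicit false

namespace Pool.Agent.H2.N3

open Finset
open Pool.Agent.H11.NW (H)

namespace Val

/-- the 3-adic valuation of `x` is at least `n` -/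
def V (n : ℤ) (x : ℚ) : Prop := padicNorm 3 x ≤ (3 : ℚ) ^ (-n)

theorem V_mono {m n : ℤ} {x : ℚ} (h : V n x) (hmn : m ≤ n) : V m x := by
  unfold V at *
  exact h.trans (zpow_le_zpow_right₀ (by norm_num) (by omega))

theorem V_add {n : ℤ} {x y : ℚ} (hx : V n x) (hy : V n y) : V n (x + y) := by
  unfold V at *
  exact (padicNorm.nonarchimedean (p := 3)).trans (max_le hx hy)

theorem V_neg {n : ℤ} {x : ℚ} (hx : V n x) : V n (-x) := by
  unfold V at *
  rwa [padicNorm.neg]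

theorem V_sub {n : ℤ} {x y : ℚ} (hx : V n x) (hy : V n y) : V n (x - y) := by
  rw [sub_eq_add_neg]
  exact V_add hx (V_neg hy)

theorem V_mul {m n : ℤ} {x y : ℚ} (hx : V m x) (hy : V n y) : V (m + n) (x * y) := by
  unfold V at *
  rw [padicNorm.mul, neg_add, zpow_add₀ (by norm_num)]
  exact mul_le_mul hx hy (padicNorm.nonneg _) (by positivity)

theorem V_zero (n : ℤ) : V n 0 := by
  unfold V
  rw [padicNorm.zero]
  positivity

theorem V_sum {ι : Type} (s : Finset ι) (f : ι → ℚ) {n : ℤ} (h : ∀ i ∈ s, V n (f i)) :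
    V n (∑ i ∈ s, f i) := by
  classical
  induction s using Finset.induction_on with
  | empty => simpa using V_zero n
  | insert a s ha ih =>
    rw [Finset.sum_insert ha]
    exact V_add (h a (Finset.mem_insert_self _ _))
      (ih fun i hi => h i (Finset.mem_insert_of_mem hi))

theorem V_nat (n : ℕ) : V 0 (n : ℚ) := by
  unfold V
  simpa using padicNorm.of_nat (p := 3) n

theorem V_pow_nat (a k : ℕ) : V 0 ((a : ℚ) ^ k) := by
  have := V_nat (a ^ k)
  push_cast at this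
  exact this

/-- the inverse of a natural number below `3 ^ (s + 1)` -/
theorem V_inv_nat {s a : ℕ} (ha : 0 < a) (h : a < 3 ^ (s + 1)) : V (-(s : ℤ)) (1 / (a : ℚ)) := by
  unfold V
  rw [padicNorm.div, padicNorm.one, neg_neg]
  have ha' : (a : ℚ) ≠ 0 := by exact_mod_cast ha.ne'
  rw [padicNorm.eq_zpow_of_nonzero ha', one_div, ← zpow_neg, neg_neg]
  refine zpow_le_zpow_right₀ (by norm_num) ?_
  rw [padicValRat.of_nat]
  have h1 : 3 ^ padicValNat 3 a ≤ a := Nat.le_of_dvd ha pow_padicValNat_dvd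
  have h2 : 3 ^ padicValNat 3 a < 3 ^ (s + 1) := lt_of_le_of_lt h1 h
  have h3 : padicValNat 3 a < s + 1 := (Nat.pow_lt_pow_iff_right (by norm_num : 1 < 3)).1 h2
  have h4 : padicValNat 3 a ≤ s := Nat.lt_succ_iff.1 h3
  exact_mod_cast h4

/-- the inverse of a number prime to `3` -/
theorem V_inv_unit {a : ℕ} (ha : a % 3 ≠ 0) : V 0 (1 / (a : ℚ)) := by
  unfold V
  rw [padicNorm.div, padicNorm.one]
  have : padicNorm 3 (a : ℚ) = 1 := (padicNorm.nat_eq_one_iff a).2 (by omega)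
  rw [this]
  norm_num

theorem V_H {s n : ℕ} (h : n < 3 ^ (s + 1)) : V (-(s : ℤ)) (H ℚ n) := by
  unfold H
  refine V_sum _ _ fun j hj => ?_
  have hj' := Finset.mem_range.1 hj
  have := V_inv_nat (s := s) (a := j + 1) (by omega) (by omega)
  push_cast at this
  exact this

theorem V_w (n : ℕ) : V 0 (w ℚ n) := by
  unfold w
  induction n with
  | zero => simpa using V_nat 1
  | succ n ih =>
    rw [Finset.prod_range_succ]
    have h1 := V_mul (V_nat (3 * (n + 1))) (V_inv_unit (a := 3 * (n + 1) + 1) (by omega))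
    push_cast at h1
    rw [mul_one_div] at h1
    have := V_mul ih h1
    exact V_mono this (by norm_num)

/-- the exponent `j + v(j!)` -/
def e (j : ℕ) : ℕ := j + padicValNat 3 j.factorial

theorem e_succ (j : ℕ) : e (j + 1) = e j + 1 + padicValNat 3 (j + 1) := by
  unfold e
  rw [Nat.factorial_succ, padicValNat.mul (by omega) (Nat.factorial_ne_zero j)]
  ring

theorem e_mono {i j : ℕ} (h : i ≤ j) : e i ≤ e j := by
  induction j, h using Nat.le_induction with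
  | base => exact le_rfl
  | succ n _ ih => rw [e_succ]; omega

theorem norm_r (j : ℕ) : padicNorm 3 (r ℚ j) = (3 : ℚ) ^ ((e j : ℕ) : ℤ) := by
  induction j with
  | zero => simp [r, e]
  | succ j ih =>
    have h1 : r ℚ (j + 1) = r ℚ j * ((3 * (j : ℚ) + 2) / (3 * ((j : ℚ) + 1))) := by
      unfold r; rw [Finset.prod_range_succ]
    have h2 : padicNorm 3 (3 * (j : ℚ) + 2) = 1 := by
      have := (padicNorm.nat_eq_one_iff (p := 3) (3 * j + 2)).2 (by omega)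
      push_cast at this
      exact this
    have h3 : padicNorm 3 (3 : ℚ) = 3⁻¹ := by
      have := padicNorm.padicNorm_p_of_prime (p := 3)
      simpa using this
    have h4 : padicNorm 3 ((j : ℚ) + 1) = (3 : ℚ) ^ (-((padicValNat 3 (j + 1) : ℕ) : ℤ)) := by
      have h5 : ((j + 1 : ℕ) : ℚ) ≠ 0 := by positivity
      have h6 : (j : ℚ) + 1 = ((j + 1 : ℕ) : ℚ) := by push_cast; rfl
      rw [h6, padicNorm.eq_zpow_of_nonzero (p := 3) h5, padicValRat.of_nat]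
      norm_num
    rw [h1, padicNorm.mul, padicNorm.div, padicNorm.mul, ih, h2, h3, h4, e_succ]
    push_cast
    rw [zpow_add₀ (by norm_num : (3 : ℚ) ≠ 0), zpow_add₀ (by norm_num : (3 : ℚ) ≠ 0), zpow_one,
      zpow_neg]
    field_simp

theorem V_r {j : ℕ} {n : ℕ} (h : e j ≤ n) : V (-(n : ℤ)) (r ℚ j) := by
  unfold V
  rw [norm_r, neg_neg]
  exact zpow_le_zpow_right₀ (by norm_num) (by exact_mod_cast h)

theorem V_A {s n j : ℕ} (hj : j < 3 ^ (s + 1)) (h : ∀ i : ℕ, i < j → e i ≤ n) :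
    V (-(n : ℤ) + -(s : ℤ)) (A ℚ j) := by
  unfold A
  refine V_sum _ _ fun i hi => ?_
  have hi' := Finset.mem_range.1 hi
  have h1 := V_r (j := j - 1 - i) (n := n) (h _ (by omega))
  have h2 := V_inv_nat (s := s) (a := i + 1) (by omega) (by omega)
  have h3 := V_mul h1 h2
  push_cast at h3
  rw [mul_one_div] at h3
  exact h3

/-- for `j < 2 * 3 ^ m` the exponent is smaller than `E` by at least `m + 1` -/
theorem e_lt {m j : ℕ} (hj : j < 2 * 3 ^ m) : e j + (m + 1) ≤ e (2 * 3 ^ m) := by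
  have hpos : 0 < 3 ^ m := by positivity
  have h1 : e j ≤ e (2 * 3 ^ m - 1) := e_mono (by omega)
  have h2 := e_succ (2 * 3 ^ m - 1)
  rw [show 2 * 3 ^ m - 1 + 1 = 2 * 3 ^ m by omega] at h2
  have h3 : padicValNat 3 (2 * 3 ^ m) = m := by
    rw [padicValNat.mul (by norm_num) hpos.ne', padicValNat.prime_pow,
      padicValNat.eq_zero_of_not_dvd (by norm_num), zero_add]
  omega

theorem V_TN {m j : ℕ} (hj : j < 2 * 3 ^ m) :
    V (-((e (2 * 3 ^ m) : ℕ) : ℤ) + 1) (TN ℚ (3 ^ m) j) := by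
  unfold TN
  have hpos : 0 < 3 ^ m := by positivity
  have h3 : 3 ^ (m + 1) = 3 * 3 ^ m := by ring
  obtain ⟨n, hn⟩ : ∃ n, e (2 * 3 ^ m) = n + (m + 1) :=
    ⟨e (2 * 3 ^ m) - (m + 1), by have := e_lt hj; omega⟩
  have he : ∀ i : ℕ, i ≤ j → e i ≤ n := fun i hi => by
    have := e_lt (m := m) (j := i) (by omega)
    omega
  have a1 : V (-(m : ℤ)) (H ℚ j) := V_H (by omega)
  have a2 : V (-(m : ℤ)) (H ℚ (2 * 3 ^ m - j)) := V_H (by omega)
  have a3 : V (-(m : ℤ)) (H ℚ (3 ^ m + j)) := V_H (by omega)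
  have a4 := V_mul (V_nat 2) (V_sub a2 a3)
  have a5 := V_mul (V_r (he j le_rfl)) (V_sub a1 (V_mono a4 (by omega)))
  have a6 : V (-(n : ℤ) + -(m : ℤ)) (A ℚ j) := V_A (by omega) fun i hi => he i hi.le
  refine V_mono (V_sub a5 a6) ?_
  rw [hn]
  push_cast
  linarith

end Val

open Val in
theorem J_ne_zero (m : ℕ) : J ℚ (3 ^ m) ≠ 0 := by
  intro hJ
  have hpos : 0 < 3 ^ m := by positivity
  have h3 : 3 ^ (m + 1) = 3 * 3 ^ m := by ring
  unfold J at hJ
  rw [Finset.sum_range_succ] at hJ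
  set E := e (2 * 3 ^ m) with hE
  have hE1 : 2 ≤ E := by
    have : 2 * 3 ^ m ≤ E := by rw [hE]; unfold e; omega
    omega
  -- the other nodes
  have hN : V (-(E : ℤ) + 1) (∑ j ∈ range (2 * 3 ^ m),
      ((3 * 3 ^ m).choose (2 * 3 ^ m - j) : ℚ) ^ 2 * TN ℚ (3 ^ m) j) := by
    refine V_sum _ _ fun j hj => ?_
    have := V_mul (V_pow_nat ((3 * 3 ^ m).choose (2 * 3 ^ m - j)) 2)
      (V_TN (m := m) (Finset.mem_range.1 hj))
    exact V_mono this (by omega)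
  have hP : V (-(E : ℤ) + 1) (∑ i ∈ range (3 ^ m),
      ((3 * 3 ^ m).choose (2 * 3 ^ m + i + 1) : ℚ) ^ 2 * (3 * w ℚ i)) := by
    refine V_sum _ _ fun i _ => ?_
    have := V_mul (V_pow_nat ((3 * 3 ^ m).choose (2 * 3 ^ m + i + 1)) 2)
      (V_mul (V_nat 3) (V_w i))
    exact V_mono this (by omega)
  -- the last node
  have hlast : ((3 * 3 ^ m).choose (2 * 3 ^ m - 2 * 3 ^ m) : ℚ) ^ 2 * TN ℚ (3 ^ m) (2 * 3 ^ m) =
      r ℚ (2 * 3 ^ m) * (2 / (3 : ℚ) ^ (m + 1)) +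
      (r ℚ (2 * 3 ^ m) * (H ℚ (2 * 3 ^ m) + 2 * H ℚ (3 * 3 ^ m - 1)) - A ℚ (2 * 3 ^ m)) := by
    have e1 : H ℚ (3 ^ m + 2 * 3 ^ m) = H ℚ (3 * 3 ^ m - 1) + 1 / (3 : ℚ) ^ (m + 1) := by
      have e2 : 3 ^ m + 2 * 3 ^ m = (3 * 3 ^ m - 1) + 1 := by omega
      rw [e2]
      unfold H
      rw [Finset.sum_range_succ]
      congr 2
      have e3 : ((3 * 3 ^ m - 1 : ℕ) : ℚ) + 1 = ((3 * 3 ^ m - 1 + 1 : ℕ) : ℚ) := by push_cast; rfl
      rw [e3, show 3 * 3 ^ m - 1 + 1 = 3 ^ (m + 1) by omega]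
      push_cast
      rfl
    have e4 : H ℚ (2 * 3 ^ m - 2 * 3 ^ m) = 0 := by rw [Nat.sub_self]; simp [H]
    unfold TN
    rw [e1, e4, Nat.sub_self, Nat.choose_zero_right]
    push_cast
    ring
  have hlow : V (-(E : ℤ) + -(m : ℤ)) (r ℚ (2 * 3 ^ m) *
      (H ℚ (2 * 3 ^ m) + 2 * H ℚ (3 * 3 ^ m - 1)) - A ℚ (2 * 3 ^ m)) := by
    have a1 : V (-(m : ℤ)) (H ℚ (2 * 3 ^ m)) := V_H (by omega)
    have a2 : V (-(m : ℤ)) (H ℚ (3 * 3 ^ m - 1)) := V_H (by omega)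
    have a3 := V_mul (V_nat 2) a2
    have a4 := V_mul (V_r (j := 2 * 3 ^ m) (n := E) le_rfl)
      (V_add a1 (V_mono a3 (show -(m : ℤ) ≤ 0 + -(m : ℤ) by omega)))
    have a5 : V (-(E : ℤ) + -(m : ℤ)) (A ℚ (2 * 3 ^ m)) := V_A (by omega) fun i hi => by
      have := e_lt hi
      omega
    exact V_sub a4 a5
  rw [hlast] at hJ
  set x := r ℚ (2 * 3 ^ m) * (2 / (3 : ℚ) ^ (m + 1)) with hx
  set S1 := ∑ j ∈ range (2 * 3 ^ m),
      ((3 * 3 ^ m).choose (2 * 3 ^ m - j) : ℚ) ^ 2 * TN ℚ (3 ^ m) j with hS1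
  set S2 := ∑ i ∈ range (3 ^ m),
      ((3 * 3 ^ m).choose (2 * 3 ^ m + i + 1) : ℚ) ^ 2 * (3 * w ℚ i) with hS2
  set y := r ℚ (2 * 3 ^ m) * (H ℚ (2 * 3 ^ m) + 2 * H ℚ (3 * 3 ^ m - 1)) - A ℚ (2 * 3 ^ m) with hy
  have hxe : x = -(S1 + y + S2) := by linarith
  have hVx : V (-(E : ℤ) + -(m : ℤ)) x := by
    rw [hxe]
    exact V_neg (V_add (V_add (V_mono hN (by omega)) hlow) (V_mono hP (by omega)))
  have hnorm : padicNorm 3 x = (3 : ℚ) ^ ((E : ℤ) + (m + 1 : ℕ)) := by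
    have h2 : padicNorm 3 (2 : ℚ) = 1 := by
      have := (padicNorm.nat_eq_one_iff (p := 3) 2).2 (by norm_num)
      exact_mod_cast this
    have h4 : padicNorm 3 ((3 : ℚ) ^ (m + 1)) = (3 : ℚ) ^ (-((m + 1 : ℕ) : ℤ)) := by
      have h5 : ((3 ^ (m + 1) : ℕ) : ℚ) ≠ 0 := by positivity
      have h6 : (3 : ℚ) ^ (m + 1) = ((3 ^ (m + 1) : ℕ) : ℚ) := by push_cast; rfl
      rw [h6, padicNorm.eq_zpow_of_nonzero (p := 3) h5, padicValRat.of_nat, padicValNat.prime_pow]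
      norm_num
    rw [hx, padicNorm.mul, padicNorm.div, norm_r, h2, h4, ← hE, one_div, ← zpow_neg, neg_neg,
      ← zpow_add₀ (by norm_num)]
  unfold V at hVx
  rw [hnorm] at hVx
  have := (zpow_le_zpow_iff_right₀ (by norm_num : (1 : ℚ) < 3)).1 hVx
  push_cast at this
  omega

end Pool.Agent.H2.N3
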