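import Pool.Agent.H2.N3.Vanish
import Pool.Agent.H2.N3.Red
import Pool.Agent.H2.N3.Integ
import Pool.Agent.H2.N3.Size
import Pool.Agent.H2.N3.Val

/-! N3 Mass: the logarithmic mass of the base 3 Wieferich primes `p` with `3k < p`, `MM p ≤ 6k`,
`k = 3^m` -/

set_option autoImplicit false

namespace Pool.Agent.H2.N3

open Finset
open Pool.Agent.H11.NW (Red red_int)

theorem w3_mass (m : ℕ) (hm : 1 ≤ m) :
    ∑ p ∈ (Ioc (3 * 3 ^ m) (18 * 3 ^ m)).filter (fun p => (p.Prime ∧ MM p ≤ 6 * 3 ^ m) ∧ W3 p),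
        Real.log p ≤
      3 * 3 ^ m * Real.log 3 + 6 * 3 ^ m * Real.log 2 + Chebyshev.psi (3 * 3 ^ m : ℝ)
        + Real.log (10 ^ 3) + 3 * Real.log (3 ^ m : ℝ) := by
  set k : ℕ := 3 ^ m with hk
  have hk3 : 3 ≤ k := by
    rw [hk]
    calc 3 = 3 ^ 1 := by norm_num
      _ ≤ 3 ^ m := Nat.pow_le_pow_right (by norm_num) hm
  obtain ⟨z, hz⟩ := J_int k
  have hJ : J ℚ k ≠ 0 := J_ne_zero m
  have hL : 0 < Nat.lcmUpto (3 * k) := Nat.lcmUpto_pos _
  have hLq : (0 : ℚ) < (Nat.lcmUpto (3 * k) : ℚ) := by exact_mod_cast hL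
  have hz0 : z ≠ 0 := by
    intro h0
    rw [h0] at hz
    have : (3 ^ (3 * k) * (Nat.lcmUpto (3 * k) : ℚ)) ≠ 0 := by positivity
    apply hJ
    have h1 : 3 ^ (3 * k) * (Nat.lcmUpto (3 * k) : ℚ) * J ℚ k = 0 := by
      rw [← hz]; simp
    rcases mul_eq_zero.1 h1 with h2 | h2
    · exact absurd h2 this
    · exact h2
  set S := (Ioc (3 * k) (18 * k)).filter (fun p => (p.Prime ∧ MM p ≤ 6 * k) ∧ W3 p) with hS
  have hdvd : ∀ p ∈ S, p ∣ z.natAbs := by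
    intro p hp
    rw [hS, mem_filter, mem_Ioc] at hp
    obtain ⟨⟨h1, h2⟩, ⟨hpp, hM⟩, hw⟩ := hp
    have : Fact p.Prime := ⟨hpp⟩
    have h3 : J (ZMod p) k = 0 := J_zmod p (by omega) hw k (by omega) hM
    have h4 := J_red p (by omega) k (by omega)
    rw [h3] at h4
    have h5 : (p : ℤ) ∣ z := red_int p _ h4 z (3 ^ (3 * k) * (Nat.lcmUpto (3 * k) : ℤ)) (by
      rw [hz]; push_cast; ring)
    exact Int.natCast_dvd.1 h5
  have hprod : ∏ p ∈ S, p ∣ z.natAbs :=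
    Finset.prod_primes_dvd _ (fun p hp => (mem_filter.1 hp).2.1.1.prime) hdvd
  have hle : ∏ p ∈ S, p ≤ z.natAbs :=
    Nat.le_of_dvd (Int.natAbs_pos.2 hz0) hprod
  have hlog : ∑ p ∈ S, Real.log p = Real.log ((∏ p ∈ S, p : ℕ) : ℝ) := by
    rw [Nat.cast_prod, Real.log_prod]
    intro p hp
    have := (mem_filter.1 hp).2.1.1.pos
    positivity
  have hpos : 0 < ∏ p ∈ S, p := Finset.prod_pos fun p hp => (mem_filter.1 hp).2.1.1.pos
  have hzle : (z.natAbs : ℝ) ≤ 10 ^ 3 * (k : ℝ) ^ 3 * 3 ^ (3 * k) * 2 ^ (6 * k) *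
      (Nat.lcmUpto (3 * k) : ℝ) := by
    have h1 : (z.natAbs : ℚ) ≤ 10 ^ 3 * (k : ℚ) ^ 3 * 3 ^ (3 * k) * 2 ^ (6 * k) *
        (Nat.lcmUpto (3 * k) : ℚ) := by
      have e1 : (z.natAbs : ℚ) = |(z : ℚ)| := by
        rw [Nat.cast_natAbs, Int.cast_abs]
      rw [e1, hz, abs_mul, abs_of_pos (by positivity :
        (0 : ℚ) < 3 ^ (3 * k) * (Nat.lcmUpto (3 * k) : ℚ))]
      have h2 := J_size k (by omega)
      calc 3 ^ (3 * k) * (Nat.lcmUpto (3 * k) : ℚ) * |J ℚ k|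
          ≤ 3 ^ (3 * k) * (Nat.lcmUpto (3 * k) : ℚ) *
            (10 ^ 3 * (k : ℚ) ^ 3 * 2 ^ (6 * k)) := by gcongr
        _ = 10 ^ 3 * (k : ℚ) ^ 3 * 3 ^ (3 * k) * 2 ^ (6 * k) * (Nat.lcmUpto (3 * k) : ℚ) := by
          ring
    exact_mod_cast h1
  have hkr : (0 : ℝ) < (k : ℝ) := by
    have : 0 < k := by omega
    exact_mod_cast this
  have hLr : (0 : ℝ) < (Nat.lcmUpto (3 * k) : ℝ) := by exact_mod_cast hL
  have hpsi : Chebyshev.psi (3 * 3 ^ m : ℝ) = Real.log (Nat.lcmUpto (3 * k)) := by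
    rw [← Chebyshev.psi_eq_log_lcmUpto]
    congr 1
    rw [hk]; push_cast; ring
  have hfin : Real.log ((∏ p ∈ S, p : ℕ) : ℝ) ≤
      Real.log (10 ^ 3 * (k : ℝ) ^ 3 * 3 ^ (3 * k) * 2 ^ (6 * k) *
      (Nat.lcmUpto (3 * k) : ℝ)) := by
    apply Real.log_le_log (by exact_mod_cast hpos)
    exact le_trans (by exact_mod_cast hle) hzle
  have hexp : Real.log (10 ^ 3 * (k : ℝ) ^ 3 * 3 ^ (3 * k) * 2 ^ (6 * k) *
      (Nat.lcmUpto (3 * k) : ℝ)) =
      3 * k * Real.log 3 + 6 * k * Real.log 2 + Real.log (Nat.lcmUpto (3 * k))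
        + Real.log (10 ^ 3) + 3 * Real.log k := by
    have a1 : Real.log ((3 : ℝ) ^ (3 * k)) = 3 * k * Real.log 3 := by
      rw [Real.log_pow]; push_cast; ring
    have a2 : Real.log ((2 : ℝ) ^ (6 * k)) = 6 * k * Real.log 2 := by
      rw [Real.log_pow]; push_cast; ring
    have a3 : Real.log ((k : ℝ) ^ 3) = 3 * Real.log k := by
      rw [Real.log_pow]; push_cast; ring
    rw [Real.log_mul (by positivity) (by positivity), Real.log_mul (by positivity) (by positivity),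
      Real.log_mul (by positivity) (by positivity), Real.log_mul (by positivity) (by positivity),
      a1, a2, a3]
    ring
  have hk2 : ((3 : ℝ) ^ m) = (k : ℝ) := by rw [hk]; push_cast; ring
  rw [hlog, hpsi, hk2]
  rw [hexp] at hfin
  linarith

end Pool.Agent.H2.N3
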