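import Pool.Agent.H2.N3.Defs
import Pool.Agent.H11.NW.Node

/-!
# N3 Node: the nodes `-2 k, …, k` (helper33)

Compare `H11/NW/Node.lean` (nodes `-K, …, K`).
-/

set_option autoImplicit false

namespace Pool.Agent.H2.N3

open Finset Polynomial
open Pool.Agent.H11.NW (H prod_erase_split sum_erase_split)

/-- the node set `{-2k, ..., k}` in `F` -/
def nodes (F : Type) [Field F] [DecidableEq F] (k : ℕ) : Finset F :=
  (range (3 * k + 1)).image fun t : ℕ => (t : F) - ((2 * k : ℕ) : F)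

theorem nodes_inj {F : Type} [Field F] (k : ℕ)
    (hk : ∀ n : ℕ, 0 < n → n ≤ 3 * k → (n : F) ≠ 0) :
    Set.InjOn (fun t : ℕ => (t : F) - ((2 * k : ℕ) : F)) (range (3 * k + 1) : Finset ℕ) := by
  intro a ha b hb hab
  simp only [coe_range, Set.mem_Iio] at ha hb
  have h1 : (a : F) = b := sub_left_injective hab
  rcases lt_trichotomy a b with h | h | h
  · exfalso
    apply hk (b - a) (by omega) (by omega)
    rw [Nat.cast_sub h.le, h1, sub_self]
  · exact h
  · exfalso
    apply hk (a - b) (by omega) (by omega)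
    rw [Nat.cast_sub h.le, h1, sub_self]

theorem card_nodes {F : Type} [Field F] [DecidableEq F] (k : ℕ)
    (hK : ∀ n : ℕ, 0 < n → n ≤ 3 * k → (n : F) ≠ 0) : (nodes F k).card = 3 * k + 1 := by
  rw [nodes, card_image_of_injOn (nodes_inj k hK), card_range]

theorem sum_nodes {F : Type} [Field F] [DecidableEq F] (k : ℕ)
    (hK : ∀ n : ℕ, 0 < n → n ≤ 3 * k → (n : F) ≠ 0) (g : F → F) :
    ∑ a ∈ nodes F k, g a =
      ∑ j ∈ range (2 * k + 1), g (-(j : F)) + ∑ i ∈ range k, g ((i : F) + 1) := by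
  rw [nodes, sum_image (nodes_inj k hK), show 3 * k + 1 = (2 * k + 1) + k by ring,
    sum_range_add, ← Finset.sum_range_reflect]
  congr 1
  · refine sum_congr rfl fun j hj => ?_
    rw [mem_range] at hj
    congr 1
    rw [show 2 * k + 1 - 1 - j = 2 * k - j by omega, Nat.cast_sub (by omega)]
    ring
  · refine sum_congr rfl fun i _ => ?_
    congr 1
    push_cast
    ring

theorem erase_nodes {F : Type} [Field F] [DecidableEq F] (k : ℕ)
    (hk : ∀ n : ℕ, 0 < n → n ≤ 3 * k → (n : F) ≠ 0) (t0 : ℕ) (h0 : t0 ≤ 3 * k) :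
    (nodes F k).erase ((t0 : F) - ((2 * k : ℕ) : F)) =
      ((range (3 * k + 1)).erase t0).image fun t : ℕ => (t : F) - ((2 * k : ℕ) : F) := by
  ext x
  simp only [nodes, mem_erase, mem_image, mem_range, ne_eq]
  constructor
  · rintro ⟨h1, t, h2, rfl⟩
    exact ⟨t, ⟨fun h => h1 (by rw [h]), h2⟩, rfl⟩
  · rintro ⟨t, ⟨h1, h2⟩, rfl⟩
    refine ⟨fun h => h1 ?_, t, h2, rfl⟩
    exact nodes_inj k hk (by simpa using h2) (by simp; omega) h

theorem node_gen {F : Type} [Field F] [DecidableEq F] (k : ℕ)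
    (hk : ∀ n : ℕ, 0 < n → n ≤ 3 * k → (n : F) ≠ 0) (t0 : ℕ) (h0 : t0 ≤ 3 * k) :
    ∏ b ∈ (nodes F k).erase ((t0 : F) - ((2 * k : ℕ) : F)), ((t0 : F) - ((2 * k : ℕ) : F) - b) =
      (-1) ^ (3 * k - t0) * (t0.factorial * (3 * k - t0).factorial : F) ∧
    ∑ b ∈ (nodes F k).erase ((t0 : F) - ((2 * k : ℕ) : F)), ((t0 : F) - ((2 * k : ℕ) : F) - b)⁻¹ =
      H F t0 - H F (3 * k - t0) := by
  have hinj : Set.InjOn (fun t : ℕ => (t : F) - ((2 * k : ℕ) : F))
      (((range (3 * k + 1)).erase t0 : Finset ℕ) : Set ℕ) :=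
    (nodes_inj k hk).mono (by
      intro x hx
      exact mem_of_mem_erase hx)
  rw [erase_nodes k hk t0 h0]
  have c1 : ∀ i ∈ range t0,
      ((t0 : F) - ((2 * k : ℕ) : F) - (((t0 - 1 - i : ℕ) : F) - ((2 * k : ℕ) : F))) =
        (i : F) + 1 := by
    intro i hi
    rw [mem_range] at hi
    rw [show t0 - 1 - i = t0 - (i + 1) by omega, Nat.cast_sub (by omega)]
    push_cast
    ring
  have c2 : ∀ i ∈ range (3 * k - t0),
      ((t0 : F) - ((2 * k : ℕ) : F) - (((t0 + 1 + i : ℕ) : F) - ((2 * k : ℕ) : F))) =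
        -((i : F) + 1) := by
    intro i _
    push_cast
    ring
  have fac : ∀ n : ℕ, ∏ i ∈ range n, ((i : F) + 1) = (n.factorial : F) := by
    intro n
    induction n with
    | zero => simp
    | succ n ih => rw [prod_range_succ, ih, Nat.factorial_succ]; push_cast; ring
  refine ⟨?_, ?_⟩
  · rw [prod_image hinj, prod_erase_split _ _ _ h0, prod_congr rfl c1, prod_congr rfl c2, fac]
    rw [show (∏ i ∈ range (3 * k - t0), -((i : F) + 1)) =
      ∏ i ∈ range (3 * k - t0), ((-1) * ((i : F) + 1)) from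
        prod_congr rfl fun i _ => by ring]
    rw [prod_mul_distrib, fac, prod_const, card_range]
    ring
  · rw [sum_image hinj, sum_erase_split _ _ _ h0,
      sum_congr rfl (fun i hi => by rw [c1 i hi]),
      sum_congr (s₁ := range (3 * k - t0)) rfl (fun i hi => by rw [c2 i hi])]
    unfold H
    simp only [inv_neg, one_div, sum_neg_distrib]
    ring

theorem node_neg {F : Type} [Field F] [DecidableEq F] (k : ℕ)
    (hK : ∀ n : ℕ, 0 < n → n ≤ 3 * k → (n : F) ≠ 0) (j : ℕ) (hj : j ≤ 2 * k) :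
    ∏ b ∈ (nodes F k).erase (-(j : F)), (-(j : F) - b) =
      (-1) ^ (k + j) * ((2 * k - j).factorial * (k + j).factorial : F) ∧
    ∑ b ∈ (nodes F k).erase (-(j : F)), (-(j : F) - b)⁻¹ = H F (2 * k - j) - H F (k + j) := by
  have h := node_gen (F := F) k hK (2 * k - j) (by omega)
  have e : (((2 * k - j : ℕ) : F) - ((2 * k : ℕ) : F)) = -(j : F) := by
    rw [Nat.cast_sub hj]; ring
  rw [e, show 3 * k - (2 * k - j) = k + j by omega] at h
  exact h

theorem node_pos {F : Type} [Field F] [DecidableEq F] (k : ℕ)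
    (hK : ∀ n : ℕ, 0 < n → n ≤ 3 * k → (n : F) ≠ 0) (i : ℕ) (hi : i < k) :
    ∏ b ∈ (nodes F k).erase ((i : F) + 1), ((i : F) + 1 - b) =
      (-1) ^ (k - (i + 1)) * ((2 * k + i + 1).factorial * (k - (i + 1)).factorial : F) := by
  have h := (node_gen (F := F) k hK (2 * k + i + 1) (by omega)).1
  have e : (((2 * k + i + 1 : ℕ) : F) - ((2 * k : ℕ) : F)) = (i : F) + 1 := by
    push_cast; ring
  rw [e, show 3 * k - (2 * k + i + 1) = k - (i + 1) by omega] at h
  exact h

end Pool.Agent.H2.N3
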