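import Pool.Agent.H2.N3.Herm
import Pool.Agent.H2.N3.Jets
import Pool.Agent.H2.N3.Harm
import Pool.Agent.H2.N3.Node

/-!
# N3: the sum `J` vanishes in `ZMod p` for a base 3 Wieferich prime (helper33)

The residues of `f / prod (X - a)^2` at the nodes `-2k, ..., k` sum to zero.
-/

set_option autoImplicit false

namespace Pool.Agent.H2.N3

open Finset Polynomial
open Pool.Agent.H11.NW (H)

private theorem sign_sq {F : Type} [Field F] (n : ℕ) : (((-1 : F) ^ n)⁻¹) ^ 2 = 1 := by
  rcases neg_one_pow_eq_or F n with h | h <;> rw [h] <;> norm_num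

/-- `N!^2` times the square of the inverse node product -/
private theorem weight_eq {F : Type} [Field F] (N a b : ℕ) (hab : a + b = N) (n : ℕ)
    (hN : (N.factorial : F) ≠ 0) :
    (N.factorial : F) ^ 2 * (((-1) ^ n * ((a.factorial : F) * (b.factorial : F)))⁻¹) ^ 2 =
      ((N.choose a : ℕ) : F) ^ 2 := by
  have h1 : (N.factorial : F) = (N.choose a : F) * (a.factorial : F) * (b.factorial : F) := by
    have h := Nat.choose_mul_factorial_mul_factorial (n := N) (k := a) (by omega)
    have h' : N - a = b := by omega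
    rw [h'] at h
    have h3 := congrArg (Nat.cast : ℕ → F) h
    push_cast at h3
    exact h3.symm
  have ha : (a.factorial : F) ≠ 0 := by
    intro h0
    apply hN
    rw [h1, h0, mul_zero, zero_mul]
  have hb : (b.factorial : F) ≠ 0 := by
    intro h0
    apply hN
    rw [h1, h0, mul_zero]
  rw [mul_inv, mul_pow, sign_sq, one_mul, h1]
  field_simp

private theorem term_neg {F : Type} [Field F] [DecidableEq F] (k : ℕ)
    (hK : ∀ n : ℕ, 0 < n → n ≤ 3 * k → (n : F) ≠ 0)
    (hfac : ((3 * k).factorial : F) ≠ 0) (f : F[X]) (j : ℕ) (hj : j ≤ 2 * k)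
    (g0 : (taylor (-(j : F)) f).coeff 0 = r F j)
    (g1 : (taylor (-(j : F)) f).coeff 1 = r F j * H F j - A F j) :
    ((3 * k).factorial : F) ^ 2 *
      ((∏ b ∈ (nodes F k).erase (-(j : F)), (-(j : F) - b))⁻¹ ^ 2 *
      ((taylor (-(j : F)) f).coeff 1
        + (-2 * ∑ b ∈ (nodes F k).erase (-(j : F)), (-(j : F) - b)⁻¹) *
          (taylor (-(j : F)) f).coeff 0)) =
      ((3 * k).choose (2 * k - j) : F) ^ 2 * TN F k j := by
  obtain ⟨e1, e2⟩ := node_neg k hK j hj
  rw [e1, e2, g0, g1, ← mul_assoc, weight_eq (3 * k) (2 * k - j) (k + j) (by omega) (k + j) hfac]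
  unfold TN
  ring

private theorem term_pos {F : Type} [Field F] [DecidableEq F] (k : ℕ)
    (hK : ∀ n : ℕ, 0 < n → n ≤ 3 * k → (n : F) ≠ 0)
    (hfac : ((3 * k).factorial : F) ≠ 0) (f : F[X]) (i : ℕ) (hi : i < k)
    (g0 : (taylor ((i : F) + 1) f).coeff 0 = 0)
    (g1 : (taylor ((i : F) + 1) f).coeff 1 = 3 * w F i) :
    ((3 * k).factorial : F) ^ 2 *
      ((∏ b ∈ (nodes F k).erase ((i : F) + 1), ((i : F) + 1 - b))⁻¹ ^ 2 *
      ((taylor ((i : F) + 1) f).coeff 1
        + (-2 * ∑ b ∈ (nodes F k).erase ((i : F) + 1), ((i : F) + 1 - b)⁻¹) *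
          (taylor ((i : F) + 1) f).coeff 0)) =
      ((3 * k).choose (2 * k + i + 1) : F) ^ 2 * (3 * w F i) := by
  rw [node_pos k hK i hi, g0, g1, ← mul_assoc,
    weight_eq (3 * k) (2 * k + i + 1) (k - (i + 1)) (by omega) (k - (i + 1)) hfac]
  ring

theorem J_zmod (p : ℕ) [Fact p.Prime] (hp : 3 < p) (hw : W3 p) (k : ℕ) (h1 : 3 * k < p)
    (h2 : MM p ≤ 6 * k) : J (ZMod p) k = 0 := by
  classical
  have hprime : p.Prime := Fact.out
  have nz : ∀ n : ℕ, 0 < n → n < p → ((n : ℕ) : ZMod p) ≠ 0 := by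
    intro n h0 hn h
    rw [ZMod.natCast_eq_zero_iff] at h
    exact absurd (Nat.le_of_dvd h0 h) (by omega)
  have three : (3 : ZMod p) ≠ 0 := by
    have := nz 3 (by norm_num) (by omega)
    exact_mod_cast this
  have hK : ∀ n : ℕ, 0 < n → n ≤ 3 * k → ((n : ℕ) : ZMod p) ≠ 0 :=
    fun n h0 hn => nz n h0 (by omega)
  have hfac : (((3 * k).factorial : ℕ) : ZMod p) ≠ 0 := by
    intro h
    rw [ZMod.natCast_eq_zero_iff, hprime.dvd_factorial] at h
    omega
  obtain ⟨f, fd, f0, f1, ff⟩ := exists_poly p hp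
  have f1' : f.coeff 1 = 0 := by rw [f1, harm_zero p hp hw, neg_zero]
  -- the degree
  have hdeg : f.natDegree + 2 ≤ 2 * (nodes (ZMod p) k).card := by
    rw [card_nodes k hK]
    omega
  have key := residue_two (nodes (ZMod p) k) _ hdeg
  rw [sum_nodes k hK] at key
  refine Eq.trans ?_ ((congrArg (fun z => (((3 * k).factorial : ℕ) : ZMod p) ^ 2 * z) key).trans
    (mul_zero _))
  show J (ZMod p) k = (((3 * k).factorial : ℕ) : ZMod p) ^ 2 * (_ + _)
  rw [mul_add, mul_sum, mul_sum]
  unfold J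
  congr 1
  · refine sum_congr rfl fun j hj => ?_
    have hj' : j ≤ 2 * k := by
      have := mem_range.1 hj
      omega
    obtain ⟨g0, g1⟩ := jet_neg three f ff f0 f1' j (fun b hb => by
      have := nz (b + 1) (by omega) (by omega)
      exact_mod_cast this)
    exact (term_neg k hK hfac f j hj' g0 g1).symm
  · refine sum_congr rfl fun i hi => ?_
    have hi' : i < k := mem_range.1 hi
    obtain ⟨g0, g1⟩ := jet_pos f ff f0 i (fun b hb => by
      have := nz (3 * b + 1) (by omega) (by omega)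
      exact_mod_cast this)
    exact (term_pos k hK hfac f i hi' g0 g1).symm

end Pool.Agent.H2.N3
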